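import Pool.Agent.H29.Thr.Defs

open Set Topology

namespace Pool.Agent.H29.Thr

variable {P Q : Type*} [TopologicalSpace P] [TopologicalSpace Q]

theorem IsArc.symm {A : Set P} {a b : P} (h : IsArc A a b) : IsArc A b a := by
  obtain ⟨γ, h1, h2, h3, h4, h5⟩ := h
  refine ⟨γ ∘ unitInterval.symm, h1.comp unitInterval.continuous_symm,
    h2.comp unitInterval.symm_bijective.injective, by simp [h4], by simp [h3], ?_⟩
  rw [Set.range_comp, unitInterval.symm_bijective.surjective.range_eq, Set.image_univ, h5]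

theorem IsArc.left_mem {A : Set P} {a b : P} (h : IsArc A a b) : a ∈ A := by
  obtain ⟨γ, h1, h2, h3, h4, h5⟩ := h
  rw [← h5, ← h3]; exact ⟨0, rfl⟩

theorem IsArc.right_mem {A : Set P} {a b : P} (h : IsArc A a b) : b ∈ A := h.symm.left_mem

theorem IsArc.image {A : Set P} {a b : P} (h : IsArc A a b) (f : P → Q)
    (hf : ContinuousOn f A) (hi : Set.InjOn f A) : IsArc (f '' A) (f a) (f b) := by
  obtain ⟨γ, h1, h2, h3, h4, h5⟩ := h
  have hm : ∀ t, γ t ∈ A := fun t => h5 ▸ ⟨t, rfl⟩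
  refine ⟨f ∘ γ, hf.comp_continuous h1 hm, ?_, by simp [h3], by simp [h4], ?_⟩
  · intro s t hst
    exact h2 (hi (hm s) (hm t) hst)
  · rw [Set.range_comp, h5]

theorem IsArc.trans {A B : Set P} {a b c : P} (hA : IsArc A a b) (hB : IsArc B b c)
    (hAB : A ∩ B ⊆ {b}) : IsArc (A ∪ B) a c := by
  obtain ⟨γ, g1, g2, g3, g4, g5⟩ := hA
  obtain ⟨δ, d1, d2, d3, d4, d5⟩ := hB
  let p : Path a b := ⟨⟨γ, g1⟩, g3, g4⟩
  let q : Path b c := ⟨⟨δ, d1⟩, d3, d4⟩
  have pr : Set.range p = A := g5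
  have qr : Set.range q = B := d5
  refine ⟨p.trans q, (p.trans q).continuous, ?_, (p.trans q).source, (p.trans q).target, ?_⟩
  · intro s t hst
    rw [Path.trans_apply, Path.trans_apply] at hst
    split_ifs at hst with h1 h2 h2
    · have := g2 (show γ _ = γ _ from hst)
      have := congrArg Subtype.val this
      simp only at this
      exact Subtype.ext (by linarith)
    · exfalso
      have m1 : p ⟨2 * (s : ℝ), (unitInterval.mul_pos_mem_iff zero_lt_two).2 ⟨s.2.1, h1⟩⟩ ∈ A :=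
        pr ▸ ⟨_, rfl⟩
      have m2 : p ⟨2 * (s : ℝ), (unitInterval.mul_pos_mem_iff zero_lt_two).2 ⟨s.2.1, h1⟩⟩ ∈ B := by
        rw [hst, ← qr]; exact ⟨_, rfl⟩
      have e1 : p ⟨2 * (s : ℝ), (unitInterval.mul_pos_mem_iff zero_lt_two).2 ⟨s.2.1, h1⟩⟩ = b :=
        hAB ⟨m1, m2⟩
      rw [e1] at hst
      have e2 := d2 (show δ 0 = δ _ from d3.trans hst)
      have := congrArg Subtype.val e2
      simp only [Set.Icc.coe_zero] at this
      push Not at h2
      linarith
    · exfalso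
      have m1 : p ⟨2 * (t : ℝ), (unitInterval.mul_pos_mem_iff zero_lt_two).2 ⟨t.2.1, h2⟩⟩ ∈ A :=
        pr ▸ ⟨_, rfl⟩
      have m2 : p ⟨2 * (t : ℝ), (unitInterval.mul_pos_mem_iff zero_lt_two).2 ⟨t.2.1, h2⟩⟩ ∈ B := by
        rw [← hst, ← qr]; exact ⟨_, rfl⟩
      have e1 : p ⟨2 * (t : ℝ), (unitInterval.mul_pos_mem_iff zero_lt_two).2 ⟨t.2.1, h2⟩⟩ = b :=
        hAB ⟨m1, m2⟩
      rw [e1] at hst
      have e2 := d2 (show δ 0 = δ _ from d3.trans hst.symm)
      have := congrArg Subtype.val e2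
      simp only [Set.Icc.coe_zero] at this
      push Not at h1
      linarith
    · have := d2 (show δ _ = δ _ from hst)
      have := congrArg Subtype.val this
      simp only at this
      exact Subtype.ext (by linarith)
  · rw [Path.trans_range, pr, qr]

/-- straight segments in the plane -/
theorem isArc_seg (a b : ℝ × ℝ) (hab : a ≠ b) :
    IsArc {p : ℝ × ℝ | ∃ t : ℝ, 0 ≤ t ∧ t ≤ 1 ∧
      p = (a.1 + t * (b.1 - a.1), a.2 + t * (b.2 - a.2))} a b := by
  refine ⟨fun t => (a.1 + t * (b.1 - a.1), a.2 + t * (b.2 - a.2)), by fun_prop, ?_, by simp,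
    by simp, ?_⟩
  · intro s t hst
    simp only [Prod.mk.injEq, add_right_inj] at hst
    by_contra hne
    apply hab
    have h0 : (s : ℝ) - t ≠ 0 := fun h => hne (Subtype.ext (by linarith))
    have h1 : ((s : ℝ) - t) * (b.1 - a.1) = 0 := by linarith [hst.1]
    have h2 : ((s : ℝ) - t) * (b.2 - a.2) = 0 := by linarith [hst.2]
    have h3 := (mul_eq_zero.1 h1).resolve_left h0
    have h4 := (mul_eq_zero.1 h2).resolve_left h0
    exact Prod.ext (by linarith) (by linarith)
  · ext p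
    constructor
    · rintro ⟨t, rfl⟩
      exact ⟨t, t.2.1, t.2.2, rfl⟩
    · rintro ⟨t, h1, h2, rfl⟩
      exact ⟨⟨t, h1, h2⟩, rfl⟩

/-- vertical segment -/
def vseg (x a b : ℤ) : Set (ℝ × ℝ) := {p | p.1 = x ∧ (a : ℝ) ≤ p.2 ∧ p.2 ≤ b}

/-- horizontal segment -/
def hseg (y a b : ℤ) : Set (ℝ × ℝ) := {p | p.2 = y ∧ (a : ℝ) ≤ p.1 ∧ p.1 ≤ b}

/-- slanted segment from `(x, 0)` to `(x', y)` -/
def sseg (x x' y : ℤ) : Set (ℝ × ℝ) :=
  {p | ∃ t : ℝ, 0 ≤ t ∧ t ≤ 1 ∧ p = ((x : ℝ) + t * (x' - x), t * y)}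

theorem isArc_vseg {x a b : ℤ} (h : a < b) : IsArc (vseg x a b) ((x : ℝ), (a : ℝ)) (x, b) := by
  have hab : (a : ℝ) < b := by exact_mod_cast h
  convert isArc_seg ((x : ℝ), (a : ℝ)) (x, b) (fun e => by
    have := congrArg Prod.snd e; simp only at this; linarith) using 1
  ext p
  simp only [vseg, Set.mem_setOf_eq]
  constructor
  · rintro ⟨h1, h2, h3⟩
    refine ⟨(p.2 - a) / (b - a), div_nonneg (by linarith) (by linarith), ?_, ?_⟩
    · rw [div_le_one (by linarith)]; linarith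
    · ext
      · simp [h1]
      · simp only
        rw [div_mul_cancel₀ _ (by linarith : (b : ℝ) - a ≠ 0)]; ring
  · rintro ⟨t, h1, h2, rfl⟩
    refine ⟨by simp, ?_, ?_⟩
    · simp only; nlinarith
    · simp only; nlinarith

theorem isArc_hseg {y a b : ℤ} (h : a < b) : IsArc (hseg y a b) ((a : ℝ), (y : ℝ)) (b, y) := by
  have hab : (a : ℝ) < b := by exact_mod_cast h
  convert isArc_seg ((a : ℝ), (y : ℝ)) (b, y) (fun e => by
    have := congrArg Prod.fst e; simp only at this; linarith) using 1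
  ext p
  simp only [hseg, Set.mem_setOf_eq]
  constructor
  · rintro ⟨h1, h2, h3⟩
    refine ⟨(p.1 - a) / (b - a), div_nonneg (by linarith) (by linarith), ?_, ?_⟩
    · rw [div_le_one (by linarith)]; linarith
    · ext
      · simp only
        rw [div_mul_cancel₀ _ (by linarith : (b : ℝ) - a ≠ 0)]; ring
      · simp [h1]
  · rintro ⟨t, h1, h2, rfl⟩
    refine ⟨by simp, ?_, ?_⟩
    · simp only; nlinarith
    · simp only; nlinarith

theorem isArc_sseg {x x' y : ℤ} (h : 0 < y) : IsArc (sseg x x' y) ((x : ℝ), (0 : ℝ)) (x', y) := by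
  have hy : (0 : ℝ) < y := by exact_mod_cast h
  convert isArc_seg ((x : ℝ), (0 : ℝ)) (x', y) (fun e => by
    have := congrArg Prod.snd e; simp only at this; linarith) using 1
  ext p
  simp only [sseg, Set.mem_setOf_eq]
  constructor
  · rintro ⟨t, h1, h2, rfl⟩
    exact ⟨t, h1, h2, by simp⟩
  · rintro ⟨t, h1, h2, rfl⟩
    exact ⟨t, h1, h2, by simp⟩

theorem isClosed_vseg (x a b : ℤ) : IsClosed (vseg x a b) := by
  apply IsClosed.inter (isClosed_eq continuous_fst continuous_const)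
  apply IsClosed.inter
  · exact isClosed_le continuous_const continuous_snd
  · exact isClosed_le continuous_snd continuous_const

theorem isClosed_hseg (y a b : ℤ) : IsClosed (hseg y a b) := by
  apply IsClosed.inter (isClosed_eq continuous_snd continuous_const)
  apply IsClosed.inter
  · exact isClosed_le continuous_const continuous_fst
  · exact isClosed_le continuous_fst continuous_const

theorem IsArc.isCompact {A : Set P} {a b : P} (h : IsArc A a b) : IsCompact A := by
  obtain ⟨γ, h1, h2, h3, h4, h5⟩ := h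
  rw [← h5]
  exact isCompact_range h1

theorem isClosed_sseg {x x' y : ℤ} (h : 0 < y) : IsClosed (sseg x x' y) :=
  (isArc_sseg h).isCompact.isClosed

end Pool.Agent.H29.Thr
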