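import Pool.Agent.H29.Thr.Surf

open Set Topology

namespace Pool.Agent.H29.Thr

variable {n : ℤ}

theorem Edg.near_hole' (e : Edg n) {i : HK} {p : ℝ × ℝ} (h : ‖p - e.cen i‖ ≤ 1 / 8) :
    |p.1 - e.hx i| ≤ 1 / 4 ∧ |p.2 - e.hy i| ≤ 1 / 4 := by
  rw [norm_prod_le_iff] at h
  obtain ⟨h1, h2⟩ := h
  rw [Real.norm_eq_abs, abs_le] at h1 h2
  simp only [Edg.cen, Prod.fst_sub, Prod.snd_sub] at h1 h2
  rw [abs_le, abs_le]
  cases i <;> simp only [dx, dy] at h1 h2 <;> push_cast at h1 h2 <;>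
    refine ⟨⟨?_, ?_⟩, ⟨?_, ?_⟩⟩ <;> linarith [h1.1, h1.2, h2.1, h2.2]

theorem Edg.lt_side (e : Edg n) : e.W < side n ∧ e.M < side n := by
  have e1 := e.hu
  have e2 := e.huv
  have e3 := e.hv
  obtain ⟨e4, e5, e6⟩ := e.base
  simp only [Edg.W, Edg.M, side]
  omega

theorem int_eq_of_near {x y : ℤ} {t : ℝ} (h1 : |t - x| ≤ 1 / 4) (h2 : |t - y| < 1 / 4) :
    x = y := by
  rw [abs_le] at h1
  rw [abs_lt] at h2
  have h3 : (x : ℝ) < ((y + 1 : ℤ) : ℝ) := by push_cast; linarith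
  have h4 : (y : ℝ) < ((x + 1 : ℤ) : ℝ) := by push_cast; linarith
  have h3' : x < y + 1 := by exact_mod_cast h3
  have h4' : y < x + 1 := by exact_mod_cast h4
  omega

variable {ι : Type*} {g : ℕ}

variable (hn : 0 ≤ n) (E : ι → Edg n) (hE : Function.Injective E) (ε : Fin g ≃ ι × HK)

/-- the crossing point in the plane -/
noncomputable def cp (E : ι → Edg n) (i j : ι) : ℝ × ℝ := (((E j).X : ℝ), ((E i).Y : ℝ))

theorem near_cp [Finite ι] {i j : ι} (h1 : (E i).u < (E j).u) (h2 : (E i).v ≠ (E j).u)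
    (h3 : (E i).v ≠ (E j).v) {p : ℝ × ℝ} (hp : ‖p - cp E i j‖ < 1 / 4) :
    p ∈ (mkD hn E hE ε).region ∧ 0 < dd hn E hE ε p ∧ (p ∈ (E j).T ↔ p.1 = (E j).X) ∧
      (p ∈ (E i).T ↔ p.2 = (E i).Y) := by
  have hp' := hp
  rw [Prod.norm_def, max_lt_iff, Real.norm_eq_abs, Real.norm_eq_abs] at hp'
  simp only [cp, Prod.fst_sub, Prod.snd_sub] at hp'
  obtain ⟨hx, hy⟩ := hp'
  have hx1 : |p.1 - (E j).X| < 1 := by linarith
  have hy1 : |p.2 - (E i).Y| < 1 := by linarith
  obtain ⟨c1, c2, c3, c4, c5, c6, c7⟩ := Edg.cross_exists h1 h2 h3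
  have hij : E i ≠ E j := by
    intro h
    rw [h] at h1
    exact lt_irrefl _ h1
  have hT1 : cp E i j ∈ (E j).T := by
    rw [Edg.local_T_right h1 h2 h3 (by simp [cp]) (by simp [cp])]
    rfl
  have hT2 : cp E i j ∈ (E i).T := by
    rw [Edg.local_T_left h1 h2 h3 (by simp [cp]) (by simp [cp])]
    rfl
  have hP1 : cp E i j ∈ (E j).path := by rw [(E j).path_eq]; exact Or.inl hT1
  have hP2 : cp E i j ∈ (E i).path := by rw [(E i).path_eq]; exact Or.inl hT2
  have hside : ‖p‖ < side n := by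
    have s1 := (E i).lt_side.1
    have s2 := (E j).lt_side.2
    obtain ⟨o1, o2, o3, o4, o5, o6, o7, o8, o9, o10, o11, o12, o13, o14⟩ := (E j).one
    have b0 := blk_nonneg hn
    have r1 : ((E j).X : ℝ) + 1 < side n := by
      have : (E j).X + 1 < side n := by omega
      exact_mod_cast this
    have r2 : ((E i).Y : ℝ) + 1 < side n := by
      have : (E i).Y + 1 < side n := by omega
      exact_mod_cast this
    have r3 : (0 : ℝ) ≤ (E j).X := by
      have : 0 ≤ (E j).X := by omega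
      exact_mod_cast this
    have r4 : (0 : ℝ) ≤ (E i).Y := by
      have : 0 ≤ (E i).Y := by
        simp only [y1] at c1
        omega
      exact_mod_cast this
    rw [abs_lt] at hx hy
    rw [Prod.norm_def, max_lt_iff, Real.norm_eq_abs, Real.norm_eq_abs, abs_lt, abs_lt]
    refine ⟨⟨?_, ?_⟩, ?_, ?_⟩ <;> linarith
  have hfar : ∀ k l, 1 / 8 < ‖p - (E k).cen l‖ := by
    intro k l
    by_contra hc
    push Not at hc
    obtain ⟨g1, g2⟩ := (E k).near_hole' hc
    have e1 : (E k).hx l = (E j).X := int_eq_of_near g1 hx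
    have e2 : (E k).hy l = (E i).Y := int_eq_of_near g2 hy
    have e3 : cp E i j = (((E k).hx l : ℝ), ((E k).hy l : ℝ)) := by
      simp only [cp, e1, e2]
    have e4 := (E k).cen_dist l
    rw [← e3] at e4
    by_cases hk : E k = E i
    · rw [hk] at e4
      have := Edg.hole_miss hij hP1 l
      linarith
    · have := Edg.hole_miss hk hP2 l
      linarith
  refine ⟨?_, dd_pos hn E hE ε hside hfar, Edg.local_T_right h1 h2 h3 hx1 hy1,
    Edg.local_T_left h1 h2 h3 hx1 hy1⟩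
  rw [mem_region]
  exact ⟨hside.le, fun k l => (hfar k l).le⟩

theorem mem_arc_pos {i : ι} {q : (ℝ × ℝ) × ℝ} (hq : 0 < q.2) (hqd : q.2 = dd hn E hE ε q.1) :
    q ∈ arc hn E hE ε i ↔ q.1 ∈ (E i).T := by
  constructor
  · rintro ⟨p, hp, rfl⟩
    by_contra hT
    simp only at hq hT
    rw [hgt_not_T hn E hE ε hT] at hq
    have := dd_nonneg hn E hE ε p
    linarith
  · intro h
    have h2 := top_mem_arc hn E hE ε h
    have h3 : top hn E hE ε q.1 = q := Prod.ext rfl hqd.symm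
    rwa [h3] at h2

theorem cross_chart [Finite ι] {i j : ι} (h1 : (E i).u < (E j).u) (h2 : (E i).v ≠ (E j).u)
    (h3 : (E i).v ≠ (E j).v) (hm : top hn E hE ε (cp E i j) ∈ (mkD hn E hE ε).surface) :
    CrossAt ((Subtype.val : (mkD hn E hE ε).surface → _) ⁻¹' (arc hn E hE ε i))
      ((Subtype.val : (mkD hn E hE ε).surface → _) ⁻¹' (arc hn E hE ε j))
      ⟨top hn E hE ε (cp E i j), hm⟩ := by
  have near := fun p (hp : ‖p - cp E i j‖ < 1 / 4) => near_cp hn E hE ε h1 h2 h3 hp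
  let S := (mkD hn E hE ε).surface
  let O : Set S := {s | ‖s.1.1 - cp E i j‖ < 1 / 4 ∧ 0 < s.1.2}
  have hO : IsOpen O := by
    have c0 : Continuous fun s : S => ‖s.1.1 - cp E i j‖ := by fun_prop
    have c1 : Continuous fun s : S => s.1.2 := by fun_prop
    exact (isOpen_lt c0 continuous_const).inter (isOpen_lt continuous_const c1)
  have hd : ∀ s : O, s.1.1.2 = dd hn E hE ε s.1.1.1 := by
    intro s
    have h4 := s.1.2.2
    rw [abs_of_pos s.2.2] at h4
    exact h4
  have hto : ∀ s : O, (4 : ℝ) • (s.1.1.1 - cp E i j) ∈ Metric.ball (0 : ℝ × ℝ) 1 := by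
    intro s
    rw [mem_ball_zero_iff, norm_smul]
    have := s.2.1
    norm_num
    linarith
  have hinv1 : ∀ w : Metric.ball (0 : ℝ × ℝ) 1,
      ‖(cp E i j + (1 / 4 : ℝ) • w.1) - cp E i j‖ < 1 / 4 := by
    intro w
    have := w.2
    rw [mem_ball_zero_iff] at this
    rw [add_sub_cancel_left, norm_smul]
    norm_num
    linarith
  have hinv2 : ∀ w : Metric.ball (0 : ℝ × ℝ) 1,
      top hn E hE ε (cp E i j + (1 / 4 : ℝ) • w.1) ∈ S := fun w =>
    top_mem hn E hE ε (near _ (hinv1 w)).1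
  let h : O ≃ₜ Metric.ball (0 : ℝ × ℝ) 1 :=
    { toFun := fun s => ⟨(4 : ℝ) • (s.1.1.1 - cp E i j), hto s⟩
      invFun := fun w => ⟨⟨top hn E hE ε (cp E i j + (1 / 4 : ℝ) • w.1), hinv2 w⟩,
        hinv1 w, (near _ (hinv1 w)).2.1⟩
      left_inv := by
        intro s
        apply Subtype.ext
        apply Subtype.ext
        have e1 : cp E i j + (1 / 4 : ℝ) • ((4 : ℝ) • (s.1.1.1 - cp E i j)) = s.1.1.1 := by
          rw [smul_smul]
          norm_num
        show top hn E hE ε (cp E i j + (1 / 4 : ℝ) • ((4 : ℝ) • (s.1.1.1 - cp E i j))) = s.1.1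
        rw [e1]
        exact Prod.ext rfl (hd s).symm
      right_inv := by
        intro w
        apply Subtype.ext
        show (4 : ℝ) • ((cp E i j + (1 / 4 : ℝ) • w.1) - cp E i j) = w.1
        rw [add_sub_cancel_left, smul_smul]
        norm_num
      continuous_toFun := by
        apply Continuous.subtype_mk
        fun_prop
      continuous_invFun := by
        apply Continuous.subtype_mk
        apply Continuous.subtype_mk
        have c1 : Continuous fun w : Metric.ball (0 : ℝ × ℝ) 1 =>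
            cp E i j + (1 / 4 : ℝ) • w.1 := by fun_prop
        exact c1.prodMk ((continuous_dd hn E hE ε).comp c1) }
  refine ⟨O, hO, ⟨?_, ?_⟩, h, ?_⟩
  · simp [top]
  · exact (near _ (by simp)).2.1
  · intro q
    have hn2 := near _ q.2.1
    have hpos : 0 < q.1.1.2 := q.2.2
    constructor
    · show q.1.1 ∈ arc hn E hE ε i ↔ ((4 : ℝ) • (q.1.1.1 - cp E i j)).2 = 0
      rw [mem_arc_pos hn E hE ε hpos (hd q), hn2.2.2.2]
      simp only [Prod.smul_snd, Prod.snd_sub, cp, smul_eq_mul]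
      constructor
      · intro h; rw [h]; ring
      · intro h; linarith
    · show q.1.1 ∈ arc hn E hE ε j ↔ ((4 : ℝ) • (q.1.1.1 - cp E i j)).1 = 0
      rw [mem_arc_pos hn E hE ε hpos (hd q), hn2.2.2.1]
      simp only [Prod.smul_fst, Prod.fst_sub, cp, smul_eq_mul]
      constructor
      · intro h; rw [h]; ring
      · intro h; linarith

end Pool.Agent.H29.Thr
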