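import Pool.Agent.H29.Thr.Arc

open Set Topology

namespace Pool.Agent.H29.Thr

/-- block positions -/
def blk (n a : ℤ) : ℤ := (4 * n + 8) * a

theorem blk_lt {n a b : ℤ} (hn : 0 ≤ n) (h : a < b) : blk n a + (4 * n + 8) ≤ blk n b := by
  unfold blk
  nlinarith

theorem blk_tri {n : ℤ} (hn : 0 ≤ n) (a b : ℤ) :
    (a < b ∧ blk n a + (4 * n + 8) ≤ blk n b) ∨ (a = b ∧ blk n a = blk n b) ∨
      (b < a ∧ blk n b + (4 * n + 8) ≤ blk n a) := by
  rcases lt_trichotomy a b with h | h | h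
  · exact Or.inl ⟨h, blk_lt hn h⟩
  · exact Or.inr (Or.inl ⟨h, by rw [h]⟩)
  · exact Or.inr (Or.inr ⟨h, blk_lt hn h⟩)

/-- an edge with tail `u` and head `v`, `0 ≤ u < v < n` -/
@[ext]
structure Edg (n : ℤ) where
  u : ℤ
  v : ℤ
  hu : 0 ≤ u
  huv : u < v
  hv : v < n

/-- abscissa of a vertex -/
def xv (n w : ℤ) : ℤ := blk n w + (4 * n + 8)

/-- height of the tail fans -/
def y1 (n : ℤ) : ℤ := blk n n + 1

variable {n : ℤ}

namespace Edg

variable (e : Edg n)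

def a : ℤ := xv n e.u
def b : ℤ := xv n e.v
def X : ℤ := blk n e.u + (4 * n + 8) + 2 + e.v
def X1 : ℤ := blk n e.u + (4 * n + 8) + n + 3 + e.v
def X2 : ℤ := blk n e.v + (4 * n + 8) - 1 - e.u
def lam : ℤ := blk n e.v + (4 * n + 8) + 1
def rho : ℤ := blk n e.v + (4 * n + 8) + n + 2
def mu : ℤ := blk n n + (4 * n + 8) + blk n e.v
def Y : ℤ := blk n n + (4 * n + 8) + blk n e.v + 1 + e.u
def nu : ℤ := blk n n + (4 * n + 8) + blk n e.v + n + 1
def M : ℤ := 2 * blk n n + 3 * (4 * n + 8) + (blk n e.u + (4 * n + 8) + 2 + e.v)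
def W : ℤ := blk n n + 2 * (4 * n + 8) + (blk n n + (4 * n + 8) + blk n e.v + 1 + e.u)
def Z : ℤ := blk n n - blk n e.v - e.u

include e in
theorem hn : 0 ≤ n := by
  have h1 := e.hu
  have h2 := e.huv
  have h3 := e.hv
  omega

theorem base : 0 ≤ blk n e.u ∧ blk n e.u + (4 * n + 8) ≤ blk n e.v ∧
    blk n e.v + (4 * n + 8) ≤ blk n n := by
  have h1 := e.hu
  have h2 := e.huv
  have h3 := e.hv
  have h0 := e.hn
  refine ⟨?_, blk_lt h0 h2, blk_lt h0 h3⟩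
  unfold blk
  nlinarith

/-- all single-edge inequalities used -/
theorem one : e.a < e.X ∧ e.X < e.X1 ∧ e.X1 < e.X2 ∧ e.X2 < e.b ∧ e.b < e.lam ∧ e.lam < e.rho ∧
    e.rho < e.W ∧ 0 < e.Z ∧ e.Z < y1 n ∧ y1 n < e.mu ∧ e.mu < e.Y ∧ e.Y < e.nu ∧ e.nu < e.M ∧
    0 ≤ e.a := by
  have h1 := e.hu
  have h2 := e.huv
  have h3 := e.hv
  obtain ⟨h4, h5, h6⟩ := e.base
  simp only [a, b, X, X1, X2, lam, rho, W, Z, mu, Y, nu, M, y1, xv]
  omega

end Edg

/-- integer boxes -/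
def box (a b c d : ℤ) : Set (ℝ × ℝ) := {p | (a : ℝ) ≤ p.1 ∧ p.1 ≤ b ∧ (c : ℝ) ≤ p.2 ∧ p.2 ≤ d}

theorem vseg_sub {x a b : ℤ} {p : ℝ × ℝ} (h : p ∈ vseg x a b) : p ∈ box x x a b :=
  ⟨h.1.ge, h.1.le, h.2.1, h.2.2⟩

theorem hseg_sub {y a b : ℤ} {p : ℝ × ℝ} (h : p ∈ hseg y a b) : p ∈ box a b y y :=
  ⟨h.2.1, h.2.2, h.1.ge, h.1.le⟩

theorem sseg_sub_r {x x' y : ℤ} (hx : x ≤ x') (hy : 0 ≤ y) {p : ℝ × ℝ} (h : p ∈ sseg x x' y) :
    p ∈ box x x' 0 y := by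
  obtain ⟨t, h1, h2, rfl⟩ := h
  have hx' : (x : ℝ) ≤ x' := by exact_mod_cast hx
  have hy' : (0 : ℝ) ≤ y := by exact_mod_cast hy
  refine ⟨?_, ?_, ?_, ?_⟩
  · simp only; nlinarith
  · simp only; nlinarith
  · simp only [Int.cast_zero]; positivity
  · simp only; nlinarith

theorem sseg_sub_l {x x' y : ℤ} (hx : x' ≤ x) (hy : 0 ≤ y) {p : ℝ × ℝ} (h : p ∈ sseg x x' y) :
    p ∈ box x' x 0 y := by
  obtain ⟨t, h1, h2, rfl⟩ := h
  have hx' : (x' : ℝ) ≤ x := by exact_mod_cast hx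
  have hy' : (0 : ℝ) ≤ y := by exact_mod_cast hy
  refine ⟨?_, ?_, ?_, ?_⟩
  · simp only; nlinarith
  · simp only; nlinarith
  · simp only [Int.cast_zero]; positivity
  · simp only; nlinarith

theorem box_inter {a b c d a' b' c' d' : ℤ} {p : ℝ × ℝ} (h : p ∈ box a b c d)
    (h' : p ∈ box a' b' c' d') : a ≤ b' ∧ a' ≤ b ∧ c ≤ d' ∧ c' ≤ d := by
  obtain ⟨h1, h2, h3, h4⟩ := h
  obtain ⟨h1', h2', h3', h4'⟩ := h'
  refine ⟨?_, ?_, ?_, ?_⟩
  · exact_mod_cast h1.trans h2'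
  · exact_mod_cast h1'.trans h2
  · exact_mod_cast h3.trans h4'
  · exact_mod_cast h3'.trans h4

theorem near_box {a b c d x y : ℤ} {p : ℝ × ℝ} (h : p ∈ box a b c d)
    (hx : |p.1 - x| < 1) (hy : |p.2 - y| < 1) : a ≤ x ∧ x ≤ b ∧ c ≤ y ∧ y ≤ d := by
  obtain ⟨h1, h2, h3, h4⟩ := h
  rw [abs_lt] at hx hy
  refine ⟨?_, ?_, ?_, ?_⟩
  · have : (a : ℝ) < ((x + 1 : ℤ) : ℝ) := by push_cast; linarith
    have : a < x + 1 := by exact_mod_cast this
    omega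
  · have : (x : ℝ) < ((b + 1 : ℤ) : ℝ) := by push_cast; linarith
    have : x < b + 1 := by exact_mod_cast this
    omega
  · have : (c : ℝ) < ((y + 1 : ℤ) : ℝ) := by push_cast; linarith
    have : c < y + 1 := by exact_mod_cast this
    omega
  · have : (y : ℝ) < ((d + 1 : ℤ) : ℝ) := by push_cast; linarith
    have : y < d + 1 := by exact_mod_cast this
    omega

namespace Edg

variable (e : Edg n)

/-- the part of the curve drawn on the top sheet -/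
def T : Set (ℝ × ℝ) :=
  sseg e.a e.X (y1 n) ∪ (vseg e.X (y1 n) e.mu ∪ (vseg e.X e.nu e.M ∪ (hseg e.Y e.X1 e.lam ∪
    (hseg e.Y e.rho e.W ∪ sseg e.b e.X2 e.Z))))

/-- the part of the curve drawn on the bottom sheet -/
def B : Set (ℝ × ℝ) :=
  vseg e.X e.mu e.nu ∪ (hseg e.M e.X e.X1 ∪ (vseg e.X1 e.Y e.M ∪ (hseg e.Y e.lam e.rho ∪
    (vseg e.W e.Z e.Y ∪ hseg e.Z e.X2 e.W))))

theorem isClosed_T : IsClosed e.T := by
  obtain ⟨o1, o2, o3, o4, o5, o6, o7, o8, o9, o10, o11, o12, o13, o14⟩ := e.one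
  exact (isClosed_sseg (by omega)).union ((isClosed_vseg _ _ _).union ((isClosed_vseg _ _ _).union
    ((isClosed_hseg _ _ _).union ((isClosed_hseg _ _ _).union (isClosed_sseg o8)))))

theorem isClosed_B : IsClosed e.B :=
  (isClosed_vseg _ _ _).union ((isClosed_hseg _ _ _).union
    ((isClosed_vseg _ _ _).union ((isClosed_hseg _ _ _).union
      ((isClosed_vseg _ _ _).union (isClosed_hseg _ _ _)))))

theorem T_box {p : ℝ × ℝ} (h : p ∈ e.T) :
    p ∈ box e.a e.X 0 (y1 n) ∨ p ∈ box e.X e.X (y1 n) e.mu ∨ p ∈ box e.X e.X e.nu e.M ∨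
    p ∈ box e.X1 e.lam e.Y e.Y ∨ p ∈ box e.rho e.W e.Y e.Y ∨ p ∈ box e.X2 e.b 0 e.Z := by
  obtain ⟨o1, o2, o3, o4, o5, o6, o7, o8, o9, o10, o11, o12, o13, o14⟩ := e.one
  rcases h with h | h | h | h | h | h
  · exact Or.inl (sseg_sub_r (by omega) (by omega) h)
  · exact Or.inr (Or.inl (vseg_sub h))
  · exact Or.inr (Or.inr (Or.inl (vseg_sub h)))
  · exact Or.inr (Or.inr (Or.inr (Or.inl (hseg_sub h))))
  · exact Or.inr (Or.inr (Or.inr (Or.inr (Or.inl (hseg_sub h)))))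
  · exact Or.inr (Or.inr (Or.inr (Or.inr (Or.inr (sseg_sub_l (by omega) (by omega) h)))))

theorem B_box {p : ℝ × ℝ} (h : p ∈ e.B) :
    p ∈ box e.X e.X e.mu e.nu ∨ p ∈ box e.X e.X1 e.M e.M ∨ p ∈ box e.X1 e.X1 e.Y e.M ∨
    p ∈ box e.lam e.rho e.Y e.Y ∨ p ∈ box e.W e.W e.Z e.Y ∨ p ∈ box e.X2 e.W e.Z e.Z := by
  rcases h with h | h | h | h | h | h
  · exact Or.inl (vseg_sub h)
  · exact Or.inr (Or.inl (hseg_sub h))
  · exact Or.inr (Or.inr (Or.inl (vseg_sub h)))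
  · exact Or.inr (Or.inr (Or.inr (Or.inl (hseg_sub h))))
  · exact Or.inr (Or.inr (Or.inr (Or.inr (Or.inl (vseg_sub h)))))
  · exact Or.inr (Or.inr (Or.inr (Or.inr (Or.inr (hseg_sub h)))))

/-- the whole planar curve, as eight segments -/
def path : Set (ℝ × ℝ) :=
  ((((((sseg e.a e.X (y1 n) ∪ vseg e.X (y1 n) e.M) ∪ hseg e.M e.X e.X1) ∪ vseg e.X1 e.Y e.M) ∪
    hseg e.Y e.X1 e.W) ∪ vseg e.W e.Z e.Y) ∪ hseg e.Z e.X2 e.W) ∪ sseg e.b e.X2 e.Z

theorem vseg_split {x a b c : ℤ} (h1 : a ≤ b) (h2 : b ≤ c) :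
    vseg x a c = vseg x a b ∪ vseg x b c := by
  have h1' : (a : ℝ) ≤ b := by exact_mod_cast h1
  have h2' : (b : ℝ) ≤ c := by exact_mod_cast h2
  ext p
  constructor
  · rintro ⟨h3, h4, h5⟩
    rcases le_total p.2 b with h | h
    · exact Or.inl ⟨h3, h4, h⟩
    · exact Or.inr ⟨h3, h, h5⟩
  · rintro (⟨h3, h4, h5⟩ | ⟨h3, h4, h5⟩)
    · exact ⟨h3, h4, h5.trans h2'⟩
    · exact ⟨h3, h1'.trans h4, h5⟩

theorem hseg_split {y a b c : ℤ} (h1 : a ≤ b) (h2 : b ≤ c) :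
    hseg y a c = hseg y a b ∪ hseg y b c := by
  have h1' : (a : ℝ) ≤ b := by exact_mod_cast h1
  have h2' : (b : ℝ) ≤ c := by exact_mod_cast h2
  ext p
  constructor
  · rintro ⟨h3, h4, h5⟩
    rcases le_total p.1 b with h | h
    · exact Or.inl ⟨h3, h4, h⟩
    · exact Or.inr ⟨h3, h, h5⟩
  · rintro (⟨h3, h4, h5⟩ | ⟨h3, h4, h5⟩)
    · exact ⟨h3, h4, h5.trans h2'⟩
    · exact ⟨h3, h1'.trans h4, h5⟩

theorem path_eq : e.path = e.T ∪ e.B := by
  obtain ⟨o1, o2, o3, o4, o5, o6, o7, o8, o9, o10, o11, o12, o13, o14⟩ := e.one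
  unfold path T B
  rw [vseg_split (x := e.X) (a := y1 n) (b := e.mu) (c := e.M) (by omega) (by omega),
    vseg_split (x := e.X) (a := e.mu) (b := e.nu) (c := e.M) (by omega) (by omega),
    hseg_split (y := e.Y) (a := e.X1) (b := e.lam) (c := e.W) (by omega) (by omega),
    hseg_split (y := e.Y) (a := e.lam) (b := e.rho) (c := e.W) (by omega) (by omega)]
  ext p
  simp only [mem_union]
  tauto

theorem mem_sseg_top {x x' y : ℤ} (hy : 0 < y) {p : ℝ × ℝ} (h : p ∈ sseg x x' y)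
    (h2 : p.2 = y) : p = ((x' : ℝ), (y : ℝ)) := by
  obtain ⟨t, h3, h4, rfl⟩ := h
  have hy' : (0 : ℝ) < y := by exact_mod_cast hy
  simp only at h2
  have : t = 1 := by
    have : (t - 1) * y = 0 := by linarith
    have := (mul_eq_zero.1 this).resolve_right hy'.ne'
    linarith
  subst this
  ext <;> simp

theorem mem_sseg_side {x x' y : ℤ} (hx : x ≠ x') {p : ℝ × ℝ} (h : p ∈ sseg x x' y)
    (h2 : p.1 = x') : p = ((x' : ℝ), (y : ℝ)) := by
  obtain ⟨t, h3, h4, rfl⟩ := h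
  simp only at h2
  have hx' : (x' : ℝ) - x ≠ 0 := by
    intro h
    apply hx
    have : (x' : ℝ) = x := by linarith
    exact_mod_cast this.symm
  have : t = 1 := by
    have : (t - 1) * ((x' : ℝ) - x) = 0 := by linarith
    have := (mul_eq_zero.1 this).resolve_right hx'
    linarith
  subst this
  ext <;> simp

theorem mem_sseg_bot {x x' y : ℤ} (hx : x ≠ x') {p : ℝ × ℝ} (h : p ∈ sseg x x' y)
    (h2 : p.1 = x) : p = ((x : ℝ), (0 : ℝ)) := by
  obtain ⟨t, h3, h4, rfl⟩ := h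
  simp only at h2
  have hx' : (x' : ℝ) - x ≠ 0 := by
    intro h
    apply hx
    have : (x' : ℝ) = x := by linarith
    exact_mod_cast this.symm
  have : t = 0 := by
    have : t * ((x' : ℝ) - x) = 0 := by linarith
    exact (mul_eq_zero.1 this).resolve_right hx'
  subst this
  ext <;> simp

theorem isArc_path : IsArc e.path ((e.a : ℝ), (0 : ℝ)) ((e.b : ℝ), (0 : ℝ)) := by
  obtain ⟨o1, o2, o3, o4, o5, o6, o7, o8, o9, o10, o11, o12, o13, o14⟩ := e.one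
  have s1 : IsArc (sseg e.a e.X (y1 n)) _ _ := isArc_sseg (by omega)
  have s2 : IsArc (vseg e.X (y1 n) e.M) _ _ := isArc_vseg (by omega)
  have s3 : IsArc (hseg e.M e.X e.X1) _ _ := isArc_hseg (by omega)
  have s4 : IsArc (vseg e.X1 e.Y e.M) _ _ := isArc_vseg (by omega)
  have s5 : IsArc (hseg e.Y e.X1 e.W) _ _ := isArc_hseg (by omega)
  have s6 : IsArc (vseg e.W e.Z e.Y) _ _ := isArc_vseg (by omega)
  have s7 : IsArc (hseg e.Z e.X2 e.W) _ _ := isArc_hseg (by omega)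
  have s8 : IsArc (sseg e.b e.X2 e.Z) _ _ := isArc_sseg (by omega)
  have b1 : ∀ p ∈ sseg e.a e.X (y1 n), p ∈ box e.a e.X 0 (y1 n) := fun p hp =>
    sseg_sub_r (by omega) (by omega) hp
  have b8 : ∀ p ∈ sseg e.b e.X2 e.Z, p ∈ box e.X2 e.b 0 e.Z := fun p hp =>
    sseg_sub_l (by omega) (by omega) hp
  refine ((((((((s1.trans s2 ?_).trans s3 ?_).trans s4.symm ?_).trans s5 ?_).trans s6.symm ?_).trans
    s7.symm ?_).trans s8.symm ?_))
  · rintro p ⟨h1, h2⟩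
    exact mem_sseg_side (by omega) h1 h2.1
  · rintro p ⟨h1 | h1, h2⟩
    · exfalso
      obtain ⟨i1, i2, i3, i4⟩ := box_inter (b1 p h1) (hseg_sub h2)
      omega
    · exact Prod.ext h1.1 h2.1
  · rintro p ⟨(h1 | h1) | h1, h2⟩
    · exfalso
      obtain ⟨i1, i2, i3, i4⟩ := box_inter (b1 p h1) (vseg_sub h2)
      omega
    · exfalso
      obtain ⟨i1, i2, i3, i4⟩ := box_inter (vseg_sub h1) (vseg_sub h2)
      omega
    · exact Prod.ext h2.1 h1.1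
  · rintro p ⟨((h1 | h1) | h1) | h1, h2⟩
    · exfalso
      obtain ⟨i1, i2, i3, i4⟩ := box_inter (b1 p h1) (hseg_sub h2)
      omega
    · exfalso
      obtain ⟨i1, i2, i3, i4⟩ := box_inter (vseg_sub h1) (hseg_sub h2)
      omega
    · exfalso
      obtain ⟨i1, i2, i3, i4⟩ := box_inter (hseg_sub h1) (hseg_sub h2)
      omega
    · exact Prod.ext h1.1 h2.1
  · rintro p ⟨(((h1 | h1) | h1) | h1) | h1, h2⟩
    · exfalso
      obtain ⟨i1, i2, i3, i4⟩ := box_inter (b1 p h1) (vseg_sub h2)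
      omega
    · exfalso
      obtain ⟨i1, i2, i3, i4⟩ := box_inter (vseg_sub h1) (vseg_sub h2)
      omega
    · exfalso
      obtain ⟨i1, i2, i3, i4⟩ := box_inter (hseg_sub h1) (vseg_sub h2)
      omega
    · exfalso
      obtain ⟨i1, i2, i3, i4⟩ := box_inter (vseg_sub h1) (vseg_sub h2)
      omega
    · exact Prod.ext h2.1 h1.1
  · rintro p ⟨((((h1 | h1) | h1) | h1) | h1) | h1, h2⟩
    · exfalso
      obtain ⟨i1, i2, i3, i4⟩ := box_inter (b1 p h1) (hseg_sub h2)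
      omega
    · exfalso
      obtain ⟨i1, i2, i3, i4⟩ := box_inter (vseg_sub h1) (hseg_sub h2)
      omega
    · exfalso
      obtain ⟨i1, i2, i3, i4⟩ := box_inter (hseg_sub h1) (hseg_sub h2)
      omega
    · exfalso
      obtain ⟨i1, i2, i3, i4⟩ := box_inter (vseg_sub h1) (hseg_sub h2)
      omega
    · exfalso
      obtain ⟨i1, i2, i3, i4⟩ := box_inter (hseg_sub h1) (hseg_sub h2)
      omega
    · exact Prod.ext h1.1 h2.1
  · rintro p ⟨(((((h1 | h1) | h1) | h1) | h1) | h1) | h1, h2⟩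
    · exfalso
      obtain ⟨i1, i2, i3, i4⟩ := box_inter (b1 p h1) (b8 p h2)
      omega
    · exfalso
      obtain ⟨i1, i2, i3, i4⟩ := box_inter (vseg_sub h1) (b8 p h2)
      omega
    · exfalso
      obtain ⟨i1, i2, i3, i4⟩ := box_inter (hseg_sub h1) (b8 p h2)
      omega
    · exfalso
      obtain ⟨i1, i2, i3, i4⟩ := box_inter (vseg_sub h1) (b8 p h2)
      omega
    · exfalso
      obtain ⟨i1, i2, i3, i4⟩ := box_inter (hseg_sub h1) (b8 p h2)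
      omega
    · exfalso
      obtain ⟨i1, i2, i3, i4⟩ := box_inter (vseg_sub h1) (b8 p h2)
      omega
    · exact mem_sseg_top o8 h2 h1.1

end Edg

end Pool.Agent.H29.Thr
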