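import Mathlib

open Set Topology

namespace Pool.Agent.H29.Thr

/-- `A` is a simple arc with end points `a` and `b`: the image of an injective continuous map
from the unit interval. -/
def IsArc {P : Type*} [TopologicalSpace P] (A : Set P) (a b : P) : Prop :=
  ∃ γ : unitInterval → P, Continuous γ ∧ Function.Injective γ ∧ γ 0 = a ∧ γ 1 = b ∧
    Set.range γ = A

/-- The sets `A` and `B` cross at `p`: some open neighbourhood of `p` is homeomorphic to the open
square `(-1, 1) × (-1, 1)`, with `A` going to the horizontal axis and `B` to the vertical axis.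
(The norm of `ℝ × ℝ` is the sup norm, so its balls are squares.) -/
def CrossAt {S : Type*} [TopologicalSpace S] (A B : Set S) (p : S) : Prop :=
  ∃ O : Set S, IsOpen O ∧ p ∈ O ∧ ∃ h : O ≃ₜ Metric.ball (0 : ℝ × ℝ) 1,
    ∀ q : O, ((q : S) ∈ A ↔ (h q : ℝ × ℝ).2 = 0) ∧ ((q : S) ∈ B ↔ (h q : ℝ × ℝ).1 = 0)

/-- The graph `G` can be thrackled on the surface `S`: its vertices can be placed at distinct
points `φ v` of `S` and its edges drawn as simple arcs `A e` between their end vertices, passing
through no other vertex, such that two edges sharing an end vertex meet only at that vertex, and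
two edges with no common end vertex meet in exactly one point and cross there. -/
def CanBeThrackled {V : Type*} (G : SimpleGraph V) (S : Type*) [TopologicalSpace S] : Prop :=
  ∃ (φ : V → S) (A : G.edgeSet → Set S),
    Function.Injective φ ∧
    (∀ (e : G.edgeSet) (u v : V), (e : Sym2 V) = s(u, v) → IsArc (A e) (φ u) (φ v)) ∧
    (∀ (e : G.edgeSet) (v : V), φ v ∈ A e → v ∈ (e : Sym2 V)) ∧
    (∀ (e f : G.edgeSet) (v : V), e ≠ f → v ∈ (e : Sym2 V) → v ∈ (f : Sym2 V) →
      A e ∩ A f = {φ v}) ∧
    (∀ e f : G.edgeSet, (∀ v, v ∈ (e : Sym2 V) → v ∉ (f : Sym2 V)) →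
      ∃ p, A e ∩ A f = {p} ∧ CrossAt (A e) (A f) p)

/-- A closed square `[-side, side] × [-side, side]` with `g` open square holes cut out, the
closures of the holes being pairwise disjoint and contained in the interior of the big square.
(The norm of `ℝ × ℝ` is the sup norm.) -/
structure HoledSquare (g : ℕ) where
  side : ℝ
  centre : Fin g → ℝ × ℝ
  radius : Fin g → ℝ
  side_pos : 0 < side
  radius_pos : ∀ i, 0 < radius i
  inside : ∀ i, ‖centre i‖ + radius i < side
  disjoint : ∀ i j, i ≠ j → radius i + radius j < ‖centre i - centre j‖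

/-- The closed planar region: the big square without the open holes. -/
def HoledSquare.region {g : ℕ} (D : HoledSquare g) : Set (ℝ × ℝ) :=
  {p | ‖p‖ ≤ D.side ∧ ∀ i, D.radius i ≤ ‖p - D.centre i‖}

/-- The double of the region: two copies of it, lying above and below it at height
`± dist(p, complement of the region)`, and glued along its boundary (where that distance is `0`).
It is the boundary surface of a thickened square with `g` holes, hence the closed orientable
surface of genus `g`. -/
def HoledSquare.surface {g : ℕ} (D : HoledSquare g) : Set ((ℝ × ℝ) × ℝ) :=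
  {q | q.1 ∈ D.region ∧ |q.2| = Metric.infDist q.1 D.regionᶜ}

end Pool.Agent.H29.Thr
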