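import Pool.Agent.H29.Thr.Coord

open Set Topology

namespace Pool.Agent.H29.Thr

/-- the eight switches of an edge -/
inductive HK
  | k0 | k1 | k2 | k3 | k4 | k5 | k6 | k7
  deriving DecidableEq

instance : Fintype HK where
  elems := {.k0, .k1, .k2, .k3, .k4, .k5, .k6, .k7}
  complete := by
    intro x
    cases x <;> simp

theorem card_HK : Fintype.card HK = 8 := rfl

variable {n : ℤ}

namespace Edg

variable (e : Edg n)

def hx : HK → ℤ
  | .k0 => e.X
  | .k1 => e.X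
  | .k2 => e.X
  | .k3 => e.X1
  | .k4 => e.lam
  | .k5 => e.rho
  | .k6 => e.W
  | .k7 => e.X2

def hy : HK → ℤ
  | .k0 => e.mu
  | .k1 => e.nu
  | .k2 => e.M
  | .k3 => e.Y
  | .k4 => e.Y
  | .k5 => e.Y
  | .k6 => e.Y
  | .k7 => e.Z

end Edg

def dx : HK → ℤ
  | .k0 => 1
  | .k1 => 1
  | .k2 => -1
  | .k3 => -1
  | .k4 => 0
  | .k5 => 0
  | .k6 => 1
  | .k7 => -1

def dy : HK → ℤ
  | .k0 => 0
  | .k1 => 0
  | .k2 => 0
  | .k3 => 0
  | .k4 => 1
  | .k5 => 1
  | .k6 => 0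
  | .k7 => 0

namespace Edg

variable (e : Edg n)

/-- centre of a hole -/
noncomputable def cen (i : HK) : ℝ × ℝ := ((e.hx i : ℝ) + dx i / 8, (e.hy i : ℝ) + dy i / 8)

theorem ne_cases {e f : Edg n} (h : e ≠ f) : e.u ≠ f.u ∨ e.v ≠ f.v := by
  by_contra hc
  push Not at hc
  exact h (Edg.ext hc.1 hc.2)

/-- different switches sit at different integer points -/
theorem hp_ne {e f : Edg n} {i j : HK} (h : e ≠ f ∨ i ≠ j) :
    e.hx i ≠ f.hx j ∨ e.hy i ≠ f.hy j := by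
  by_cases hef : e = f
  · subst hef
    have hij : i ≠ j := by
      rcases h with h | h
      · exact absurd rfl h
      · exact h
    obtain ⟨o1, o2, o3, o4, o5, o6, o7, o8, o9, o10, o11, o12, o13, o14⟩ := e.one
    cases i <;> cases j <;> first | exact absurd rfl hij | (simp only [hx, hy]; omega)
  · have hne := ne_cases hef
    have e1 := e.hu
    have e2 := e.huv
    have e3 := e.hv
    obtain ⟨e4, e5, e6⟩ := e.base
    have f1 := f.hu
    have f2 := f.huv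
    have f3 := f.hv
    obtain ⟨f4, f5, f6⟩ := f.base
    have t1 := blk_tri e.hn e.u f.u
    have t2 := blk_tri e.hn e.u f.v
    have t3 := blk_tri e.hn e.v f.u
    have t4 := blk_tri e.hn e.v f.v
    cases i <;> cases j <;>
      simp only [hx, hy, X, X1, X2, lam, rho, W, Z, mu, Y, nu, M] <;> omega

/-- the bounding boxes of the pieces of the curve -/
theorem path_box {p : ℝ × ℝ} (h : p ∈ e.path) :
    p ∈ box e.a e.X 0 (y1 n) ∨ p ∈ box e.X e.X (y1 n) e.M ∨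
    p ∈ box e.X e.X1 e.M e.M ∨ p ∈ box e.X1 e.X1 e.Y e.M ∨ p ∈ box e.X1 e.W e.Y e.Y ∨
    p ∈ box e.W e.W e.Z e.Y ∨ p ∈ box e.X2 e.W e.Z e.Z ∨ p ∈ box e.X2 e.b 0 e.Z := by
  obtain ⟨o1, o2, o3, o4, o5, o6, o7, o8, o9, o10, o11, o12, o13, o14⟩ := e.one
  rcases h with ((((((h | h) | h) | h) | h) | h) | h) | h
  · exact Or.inl (sseg_sub_r (by omega) (by omega) h)
  · exact Or.inr (Or.inl (vseg_sub h))
  · exact Or.inr (Or.inr (Or.inl (hseg_sub h)))
  · exact Or.inr (Or.inr (Or.inr (Or.inl (vseg_sub h))))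
  · exact Or.inr (Or.inr (Or.inr (Or.inr (Or.inl (hseg_sub h)))))
  · exact Or.inr (Or.inr (Or.inr (Or.inr (Or.inr (Or.inl (vseg_sub h))))))
  · exact Or.inr (Or.inr (Or.inr (Or.inr (Or.inr (Or.inr (Or.inl (hseg_sub h)))))))
  · exact Or.inr (Or.inr (Or.inr (Or.inr (Or.inr (Or.inr (Or.inr
      (sseg_sub_l (by omega) (by omega) h)))))))

/-- a point close to the centre of a hole is close to the switch -/
theorem near_hole {i : HK} {p : ℝ × ℝ} (h : ‖p - e.cen i‖ ≤ 1 / 8) :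
    |p.1 - e.hx i| < 1 ∧ |p.2 - e.hy i| < 1 := by
  rw [norm_prod_le_iff] at h
  obtain ⟨h1, h2⟩ := h
  rw [Real.norm_eq_abs, abs_le] at h1 h2
  simp only [cen, Prod.fst_sub, Prod.snd_sub] at h1 h2
  rw [abs_lt, abs_lt]
  cases i <;> simp only [dx, dy] at h1 h2 <;> push_cast at h1 h2 <;>
    refine ⟨⟨?_, ?_⟩, ⟨?_, ?_⟩⟩ <;> linarith [h1.1, h1.2, h2.1, h2.2]

/-- the closed holes of an edge avoid the other curves -/
theorem hole_miss {e f : Edg n} (hef : e ≠ f) {p : ℝ × ℝ} (hp : p ∈ f.path) (i : HK) :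
    1 / 8 < ‖p - e.cen i‖ := by
  by_contra hc
  push Not at hc
  obtain ⟨hx1, hy1⟩ := e.near_hole hc
  have hne := ne_cases hef
  have e1 := e.hu
  have e2 := e.huv
  have e3 := e.hv
  obtain ⟨e4, e5, e6⟩ := e.base
  have f1 := f.hu
  have f2 := f.huv
  have f3 := f.hv
  obtain ⟨f4, f5, f6⟩ := f.base
  have t1 := blk_tri e.hn e.u f.u
  have t2 := blk_tri e.hn e.u f.v
  have t3 := blk_tri e.hn e.v f.u
  have t4 := blk_tri e.hn e.v f.v
  rcases f.path_box hp with h | h | h | h | h | h | h | h <;>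
    obtain ⟨i1, i2, i3, i4⟩ := near_box h hx1 hy1 <;>
    cases i <;>
    simp only [hx, hy, a, b, X, X1, X2, lam, rho, W, Z, mu, Y, nu, M, y1, xv] at i1 i2 i3 i4 <;>
    omega

end Edg

end Pool.Agent.H29.Thr
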