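import Pool.Agent.H29.Thr.Pairs

open Set Topology

namespace Pool.Agent.H29.Thr

variable {n : ℤ}

/-- half the side of the big square -/
def side (n : ℤ) : ℤ := 10 * (blk n n + (4 * n + 8))

namespace Edg

variable (e : Edg n)

theorem cross_exists {e f : Edg n} (h1 : e.u < f.u) (h2 : e.v ≠ f.u) (h3 : e.v ≠ f.v) :
    y1 n + 1 ≤ e.Y ∧ e.Y + 1 ≤ f.M ∧ (e.Y + 1 ≤ f.mu ∨ f.nu + 1 ≤ e.Y) ∧
    e.X1 + 1 ≤ f.X ∧ f.X + 1 ≤ e.W ∧ (f.X + 1 ≤ e.lam ∨ e.rho + 1 ≤ f.X) ∧ e.Y ≠ f.Y := by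
  have e1 := e.hu
  have e2 := e.huv
  have e3 := e.hv
  obtain ⟨e4, e5, e6⟩ := e.base
  have f1 := f.hu
  have f2 := f.huv
  have f3 := f.hv
  obtain ⟨f4, f5, f6⟩ := f.base
  have t1 := blk_tri e.hn e.u f.u
  have t2 := blk_tri e.hn e.u f.v
  have t3 := blk_tri e.hn e.v f.u
  have t4 := blk_tri e.hn e.v f.v
  simp only [X, X1, lam, rho, W, mu, Y, nu, M, y1]
  omega

/-- the vertical curve near the crossing -/
theorem local_T_right {e f : Edg n} (h1 : e.u < f.u) (h2 : e.v ≠ f.u) (h3 : e.v ≠ f.v)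
    {p : ℝ × ℝ} (hx : |p.1 - f.X| < 1) (hy : |p.2 - e.Y| < 1) :
    p ∈ f.T ↔ p.1 = f.X := by
  obtain ⟨c1, c2, c3, c4, c5, c6, c7⟩ := cross_exists h1 h2 h3
  obtain ⟨q1, q2, q3, q4, q5, q6, q7, q8, q9, q10, q11, q12, q13, q14⟩ := f.one
  constructor
  · intro hT
    rcases hT with h | h | h | h | h | h
    · exfalso
      obtain ⟨i1, i2, i3, i4⟩ := near_box (sseg_sub_r (by omega) (by omega) h) hx hy
      omega
    · exact h.1
    · exact h.1
    · exfalso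
      obtain ⟨i1, i2, i3, i4⟩ := near_box (hseg_sub h) hx hy
      omega
    · exfalso
      obtain ⟨i1, i2, i3, i4⟩ := near_box (hseg_sub h) hx hy
      omega
    · exfalso
      obtain ⟨i1, i2, i3, i4⟩ := near_box (sseg_sub_l (by omega) (by omega) h) hx hy
      omega
  · intro h
    rw [abs_lt] at hy
    have c1' : (y1 n : ℝ) + 1 ≤ e.Y := by exact_mod_cast c1
    have c2' : (e.Y : ℝ) + 1 ≤ f.M := by exact_mod_cast c2
    rcases c3 with c3 | c3
    · have c3' : (e.Y : ℝ) + 1 ≤ f.mu := by exact_mod_cast c3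
      exact Or.inr (Or.inl ⟨h, by linarith, by linarith⟩)
    · have c3' : (f.nu : ℝ) + 1 ≤ e.Y := by exact_mod_cast c3
      exact Or.inr (Or.inr (Or.inl ⟨h, by linarith, by linarith⟩))

/-- the horizontal curve near the crossing -/
theorem local_T_left {e f : Edg n} (h1 : e.u < f.u) (h2 : e.v ≠ f.u) (h3 : e.v ≠ f.v)
    {p : ℝ × ℝ} (hx : |p.1 - f.X| < 1) (hy : |p.2 - e.Y| < 1) :
    p ∈ e.T ↔ p.2 = e.Y := by
  obtain ⟨c1, c2, c3, c4, c5, c6, c7⟩ := cross_exists h1 h2 h3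
  obtain ⟨q1, q2, q3, q4, q5, q6, q7, q8, q9, q10, q11, q12, q13, q14⟩ := e.one
  constructor
  · intro hT
    rcases hT with h | h | h | h | h | h
    · exfalso
      obtain ⟨i1, i2, i3, i4⟩ := near_box (sseg_sub_r (by omega) (by omega) h) hx hy
      omega
    · exfalso
      obtain ⟨i1, i2, i3, i4⟩ := near_box (vseg_sub h) hx hy
      omega
    · exfalso
      obtain ⟨i1, i2, i3, i4⟩ := near_box (vseg_sub h) hx hy
      omega
    · exact h.1
    · exact h.1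
    · exfalso
      obtain ⟨i1, i2, i3, i4⟩ := near_box (sseg_sub_l (by omega) (by omega) h) hx hy
      omega
  · intro h
    rw [abs_lt] at hx
    have c1' : (e.X1 : ℝ) + 1 ≤ f.X := by exact_mod_cast c4
    have c2' : (f.X : ℝ) + 1 ≤ e.W := by exact_mod_cast c5
    rcases c6 with c3 | c3
    · have c3' : (f.X : ℝ) + 1 ≤ e.lam := by exact_mod_cast c3
      exact Or.inr (Or.inr (Or.inr (Or.inl ⟨h, by linarith, by linarith⟩)))
    · have c3' : (e.rho : ℝ) + 1 ≤ f.X := by exact_mod_cast c3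
      exact Or.inr (Or.inr (Or.inr (Or.inr (Or.inl ⟨h, by linarith, by linarith⟩))))

theorem path_bound {p : ℝ × ℝ} (hp : p ∈ e.path) : ‖p‖ < side n := by
  have e1 := e.hu
  have e2 := e.huv
  have e3 := e.hv
  obtain ⟨e4, e5, e6⟩ := e.base
  obtain ⟨o1, o2, o3, o4, o5, o6, o7, o8, o9, o10, o11, o12, o13, o14⟩ := e.one
  have hW : e.W < side n := by simp only [W, side]; omega
  have hM : e.M < side n := by simp only [M, side]; omega
  have hX : e.X < side n := by simp only [X, side]; omega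
  have hy1 : y1 n < side n := by simp only [y1, side]; omega
  have hb : p ∈ box 0 (side n - 1) 0 (side n - 1) := by
    have key : ∀ a b c d : ℤ, p ∈ box a b c d → 0 ≤ a → b ≤ side n - 1 → 0 ≤ c →
        d ≤ side n - 1 → p ∈ box 0 (side n - 1) 0 (side n - 1) := by
      intro a b c d h h1 h2 h3 h4
      obtain ⟨g1, g2, g3, g4⟩ := h
      refine ⟨le_trans (by exact_mod_cast h1) g1, g2.trans (by exact_mod_cast h2),
        le_trans (by exact_mod_cast h3) g3, g4.trans (by exact_mod_cast h4)⟩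
    rcases e.path_box hp with h | h | h | h | h | h | h | h <;>
      exact key _ _ _ _ h (by omega) (by omega) (by omega) (by omega)
  obtain ⟨g1, g2, g3, g4⟩ := hb
  push_cast at g1 g2 g3 g4
  rw [Prod.norm_def, max_lt_iff, Real.norm_eq_abs, Real.norm_eq_abs, abs_lt, abs_lt]
  refine ⟨⟨?_, ?_⟩, ?_, ?_⟩ <;> linarith

theorem cen_bound (i : HK) : ‖e.cen i‖ + 1 / 8 < side n := by
  have e1 := e.hu
  have e2 := e.huv
  have e3 := e.hv
  obtain ⟨e4, e5, e6⟩ := e.base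
  have hx0 : 0 ≤ e.hx i ∧ e.hx i + 1 ≤ side n ∧ 0 ≤ e.hy i ∧ e.hy i + 1 ≤ side n := by
    cases i <;> simp only [hx, hy, X, X1, X2, lam, rho, W, Z, mu, Y, nu, M, side] <;> omega
  obtain ⟨h1, h2, h3, h4⟩ := hx0
  have h1' : (0 : ℝ) ≤ e.hx i := by exact_mod_cast h1
  have h2' : (e.hx i : ℝ) + 1 ≤ side n := by exact_mod_cast h2
  have h3' : (0 : ℝ) ≤ e.hy i := by exact_mod_cast h3
  have h4' : (e.hy i : ℝ) + 1 ≤ side n := by exact_mod_cast h4
  have hd : |(dx i : ℝ)| ≤ 1 ∧ |(dy i : ℝ)| ≤ 1 := by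
    cases i <;> simp [dx, dy]
  obtain ⟨d1, d2⟩ := hd
  rw [abs_le] at d1 d2
  rw [← lt_sub_iff_add_lt, Prod.norm_def, max_lt_iff, Real.norm_eq_abs, Real.norm_eq_abs, abs_lt,
    abs_lt]
  simp only [cen]
  refine ⟨⟨?_, ?_⟩, ?_, ?_⟩ <;> linarith

/-- different holes are far apart -/
theorem cen_far {e f : Edg n} {i j : HK} (h : e ≠ f ∨ i ≠ j) :
    1 / 8 + 1 / 8 < ‖e.cen i - f.cen j‖ := by
  have hd : ∀ i, |(dx i : ℝ)| ≤ 1 ∧ |(dy i : ℝ)| ≤ 1 := by
    intro i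
    cases i <;> simp [dx, dy]
  obtain ⟨d1, d2⟩ := hd i
  obtain ⟨d3, d4⟩ := hd j
  rw [abs_le] at d1 d2 d3 d4
  rw [Prod.norm_def, lt_max_iff, Real.norm_eq_abs, Real.norm_eq_abs, lt_abs, lt_abs]
  simp only [cen, Prod.fst_sub, Prod.snd_sub]
  rcases hp_ne h with h1 | h1
  · left
    rcases lt_or_gt_of_ne h1 with h2 | h2
    · right
      have : (e.hx i : ℝ) + 1 ≤ f.hx j := by exact_mod_cast h2
      linarith
    · left
      have : (f.hx j : ℝ) + 1 ≤ e.hx i := by exact_mod_cast h2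
      linarith
  · right
    rcases lt_or_gt_of_ne h1 with h2 | h2
    · right
      have : (e.hy i : ℝ) + 1 ≤ f.hy j := by exact_mod_cast h2
      linarith
    · left
      have : (f.hy j : ℝ) + 1 ≤ e.hy i := by exact_mod_cast h2
      linarith

theorem cen_dist (i : HK) : ‖((e.hx i : ℝ), (e.hy i : ℝ)) - e.cen i‖ = 1 / 8 := by
  rw [Prod.norm_def, Real.norm_eq_abs, Real.norm_eq_abs]
  simp only [cen, Prod.fst_sub, Prod.snd_sub]
  cases i <;> simp [dx, dy] <;> norm_num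

/-- the centre of a hole is an interior point of the complement; the switch is a limit of points
of the hole -/
theorem seg_hole (i : HK) (t : ℝ) (ht : 0 < t) (ht1 : t ≤ 1) :
    ‖(((e.hx i : ℝ), (e.hy i : ℝ)) + t • (e.cen i - ((e.hx i : ℝ), (e.hy i : ℝ)))) - e.cen i‖
      < 1 / 8 := by
  have : (((e.hx i : ℝ), (e.hy i : ℝ)) + t • (e.cen i - ((e.hx i : ℝ), (e.hy i : ℝ)))) - e.cen i =
      (1 - t) • (((e.hx i : ℝ), (e.hy i : ℝ)) - e.cen i) := by
    rw [sub_smul, one_smul, smul_sub, smul_sub]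
    abel
  rw [this, norm_smul, cen_dist, Real.norm_eq_abs, abs_of_nonneg (by linarith)]
  linarith

/-- only the end vertices lie on the curve -/
theorem vertex_path {w : ℤ} (h : ((xv n w : ℝ), (0 : ℝ)) ∈ e.path) : w = e.u ∨ w = e.v := by
  have e1 := e.hu
  have e2 := e.huv
  have e3 := e.hv
  obtain ⟨e4, e5, e6⟩ := e.base
  have t1 := blk_tri e.hn e.u w
  have t2 := blk_tri e.hn e.v w
  have hb : ((xv n w : ℝ), (0 : ℝ)) ∈ box (xv n w) (xv n w) 0 0 := by
    refine ⟨le_rfl, le_rfl, ?_, ?_⟩ <;> simp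
  rcases e.path_box h with h | h | h | h | h | h | h | h <;>
    obtain ⟨i1, i2, i3, i4⟩ := box_inter hb h <;>
    simp only [a, b, X, X1, X2, lam, rho, W, Z, mu, Y, nu, M, y1, xv] at i1 i2 i3 i4 <;>
    omega

theorem u_mem : ((xv n e.u : ℝ), (0 : ℝ)) ∈ e.T := by
  obtain ⟨o1, o2, o3, o4, o5, o6, o7, o8, o9, o10, o11, o12, o13, o14⟩ := e.one
  exact Or.inl (isArc_sseg (by omega)).left_mem

theorem v_mem : ((xv n e.v : ℝ), (0 : ℝ)) ∈ e.T := by
  obtain ⟨o1, o2, o3, o4, o5, o6, o7, o8, o9, o10, o11, o12, o13, o14⟩ := e.one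
  exact Or.inr (Or.inr (Or.inr (Or.inr (Or.inr (isArc_sseg (by omega)).left_mem))))

end Edg

theorem xv_inj {n w w' : ℤ} (hn : 0 ≤ n) (h : xv n w = xv n w') : w = w' := by
  have := blk_tri hn w w'
  simp only [xv] at h
  omega

end Pool.Agent.H29.Thr
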