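import Pool.Agent.H29.Thr.Holes

open Set Topology

namespace Pool.Agent.H29.Thr

variable {n : ℤ}

namespace Edg

variable (e : Edg n)

/-- a curve does not enter its own open holes -/
theorem hole_own {p : ℝ × ℝ} (hp : p ∈ e.path) (i : HK) : 1 / 8 ≤ ‖p - e.cen i‖ := by
  by_contra hc
  push Not at hc
  obtain ⟨hx1, hy1⟩ := e.near_hole hc.le
  rw [Prod.norm_def, max_lt_iff, Real.norm_eq_abs, Real.norm_eq_abs, abs_lt, abs_lt] at hc
  obtain ⟨⟨hc1, hc2⟩, ⟨hc3, hc4⟩⟩ := hc
  simp only [cen, Prod.fst_sub, Prod.snd_sub] at hc1 hc2 hc3 hc4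
  obtain ⟨o1, o2, o3, o4, o5, o6, o7, o8, o9, o10, o11, o12, o13, o14⟩ := e.one
  rcases e.path_box hp with h | h | h | h | h | h | h | h <;>
    obtain ⟨i1, i2, i3, i4⟩ := near_box h hx1 hy1 <;>
    obtain ⟨h1, h2, h3, h4⟩ := h <;>
    cases i <;>
    simp only [hx, hy, dx, dy] at i1 i2 i3 i4 hc1 hc2 hc3 hc4 <;>
    push_cast at hc1 hc2 hc3 hc4 <;>
    first
      | (exfalso; omega)
      | (exfalso; linarith)

theorem T_inter_B {p : ℝ × ℝ} (hT : p ∈ e.T) (hB : p ∈ e.B) :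
    ∃ i, p = ((e.hx i : ℝ), (e.hy i : ℝ)) := by
  obtain ⟨o1, o2, o3, o4, o5, o6, o7, o8, o9, o10, o11, o12, o13, o14⟩ := e.one
  have key : (∃ i, p.1 = e.hx i ∧ p.2 = e.hy i) := by
    rcases hT with h | h | h | h | h | h
    · exfalso
      have h := sseg_sub_r (by omega) (by omega) h
      rcases e.B_box hB with h' | h' | h' | h' | h' | h' <;>
        obtain ⟨i1, i2, i3, i4⟩ := box_inter h h' <;> omega
    · rcases hB with h' | h' | h' | h' | h' | h'
      · refine ⟨.k0, h.1, le_antisymm h.2.2 h'.2.1⟩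
      all_goals exfalso
      · obtain ⟨i1, i2, i3, i4⟩ := box_inter (vseg_sub h) (hseg_sub h'); omega
      · obtain ⟨i1, i2, i3, i4⟩ := box_inter (vseg_sub h) (vseg_sub h'); omega
      · obtain ⟨i1, i2, i3, i4⟩ := box_inter (vseg_sub h) (hseg_sub h'); omega
      · obtain ⟨i1, i2, i3, i4⟩ := box_inter (vseg_sub h) (vseg_sub h'); omega
      · obtain ⟨i1, i2, i3, i4⟩ := box_inter (vseg_sub h) (hseg_sub h'); omega
    · rcases hB with h' | h' | h' | h' | h' | h'
      · refine ⟨.k1, h.1, le_antisymm h'.2.2 h.2.1⟩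
      · refine ⟨.k2, h.1, h'.1⟩
      all_goals exfalso
      · obtain ⟨i1, i2, i3, i4⟩ := box_inter (vseg_sub h) (vseg_sub h'); omega
      · obtain ⟨i1, i2, i3, i4⟩ := box_inter (vseg_sub h) (hseg_sub h'); omega
      · obtain ⟨i1, i2, i3, i4⟩ := box_inter (vseg_sub h) (vseg_sub h'); omega
      · obtain ⟨i1, i2, i3, i4⟩ := box_inter (vseg_sub h) (hseg_sub h'); omega
    · rcases hB with h' | h' | h' | h' | h' | h'
      · exfalso; obtain ⟨i1, i2, i3, i4⟩ := box_inter (hseg_sub h) (vseg_sub h'); omega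
      · exfalso; obtain ⟨i1, i2, i3, i4⟩ := box_inter (hseg_sub h) (hseg_sub h'); omega
      · exact ⟨.k3, h'.1, h.1⟩
      · exact ⟨.k4, le_antisymm h.2.2 h'.2.1, h.1⟩
      · exfalso; obtain ⟨i1, i2, i3, i4⟩ := box_inter (hseg_sub h) (vseg_sub h'); omega
      · exfalso; obtain ⟨i1, i2, i3, i4⟩ := box_inter (hseg_sub h) (hseg_sub h'); omega
    · rcases hB with h' | h' | h' | h' | h' | h'
      · exfalso; obtain ⟨i1, i2, i3, i4⟩ := box_inter (hseg_sub h) (vseg_sub h'); omega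
      · exfalso; obtain ⟨i1, i2, i3, i4⟩ := box_inter (hseg_sub h) (hseg_sub h'); omega
      · exfalso; obtain ⟨i1, i2, i3, i4⟩ := box_inter (hseg_sub h) (vseg_sub h'); omega
      · exact ⟨.k5, le_antisymm h'.2.2 h.2.1, h.1⟩
      · exact ⟨.k6, h'.1, h.1⟩
      · exfalso; obtain ⟨i1, i2, i3, i4⟩ := box_inter (hseg_sub h) (hseg_sub h'); omega
    · have h0 := sseg_sub_l (by omega) (by omega) h
      rcases hB with h' | h' | h' | h' | h' | h'
      · exfalso; obtain ⟨i1, i2, i3, i4⟩ := box_inter h0 (vseg_sub h'); omega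
      · exfalso; obtain ⟨i1, i2, i3, i4⟩ := box_inter h0 (hseg_sub h'); omega
      · exfalso; obtain ⟨i1, i2, i3, i4⟩ := box_inter h0 (vseg_sub h'); omega
      · exfalso; obtain ⟨i1, i2, i3, i4⟩ := box_inter h0 (hseg_sub h'); omega
      · exfalso; obtain ⟨i1, i2, i3, i4⟩ := box_inter h0 (vseg_sub h'); omega
      · have := mem_sseg_top o8 h h'.1
        exact ⟨.k7, by rw [this]; rfl, by rw [this]; rfl⟩
  obtain ⟨i, h1, h2⟩ := key
  exact ⟨i, Prod.ext h1 h2⟩

/-- bottom parts of different curves are disjoint -/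
theorem B_inter_B {e f : Edg n} (hef : e ≠ f) {p : ℝ × ℝ} (he : p ∈ e.B) (hf : p ∈ f.B) :
    False := by
  have hne := ne_cases hef
  have e1 := e.hu
  have e2 := e.huv
  have e3 := e.hv
  obtain ⟨e4, e5, e6⟩ := e.base
  have f1 := f.hu
  have f2 := f.huv
  have f3 := f.hv
  obtain ⟨f4, f5, f6⟩ := f.base
  have t1 := blk_tri e.hn e.u f.u
  have t2 := blk_tri e.hn e.u f.v
  have t3 := blk_tri e.hn e.v f.u
  have t4 := blk_tri e.hn e.v f.v
  rcases e.B_box he with h | h | h | h | h | h <;>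
    rcases f.B_box hf with h' | h' | h' | h' | h' | h' <;>
    obtain ⟨i1, i2, i3, i4⟩ := box_inter h h' <;>
    simp only [X, X1, X2, lam, rho, W, Z, mu, Y, nu, M] at i1 i2 i3 i4 <;>
    omega

theorem fan_fan {x x' x'' y y' : ℤ} (hy : 0 < y) (hy' : 0 < y')
    (h : (x' - x) * y' ≠ (x'' - x) * y) {p : ℝ × ℝ} (h1 : p ∈ sseg x x' y)
    (h2 : p ∈ sseg x x'' y') : p = ((x : ℝ), (0 : ℝ)) := by
  obtain ⟨t, t1, t2, rfl⟩ := h1
  obtain ⟨s, s1, s2, h3⟩ := h2
  have ha := congrArg Prod.fst h3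
  have hb := congrArg Prod.snd h3
  simp only at ha hb
  have hyr : (0 : ℝ) < y := by exact_mod_cast hy
  have hyr' : (0 : ℝ) < y' := by exact_mod_cast hy'
  have hr : ((x' : ℝ) - x) * y' ≠ (x'' - x) * y := by exact_mod_cast h
  have : t * (((x' : ℝ) - x) * y' - (x'' - x) * y) = 0 := by
    have e1 : t * (((x' : ℝ) - x) * y') = s * (x'' - x) * y' := by
      have : t * ((x' : ℝ) - x) = s * (x'' - x) := by linarith
      rw [← mul_assoc, this]
    have e2 : t * (((x'' : ℝ) - x) * y) = s * (x'' - x) * y' := by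
      calc t * (((x'' : ℝ) - x) * y) = (x'' - x) * (t * y) := by ring
        _ = (x'' - x) * (s * y') := by rw [hb]
        _ = _ := by ring
    rw [mul_sub, e1, e2, sub_self]
  have ht : t = 0 := (mul_eq_zero.1 this).resolve_right (sub_ne_zero.2 hr)
  subst ht
  ext <;> simp

/-- top parts of two different curves meet only at common vertices and at the crossing -/
theorem T_inter_T {e f : Edg n} (hef : e ≠ f) {p : ℝ × ℝ} (he : p ∈ e.T) (hf : p ∈ f.T) :
    (∃ w : ℤ, (w = e.u ∨ w = e.v) ∧ (w = f.u ∨ w = f.v) ∧ p = ((xv n w : ℝ), (0 : ℝ))) ∨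
    (e.u < f.u ∧ e.v ≠ f.u ∧ e.v ≠ f.v ∧ p = ((f.X : ℝ), (e.Y : ℝ))) ∨
    (f.u < e.u ∧ f.v ≠ e.u ∧ f.v ≠ e.v ∧ p = ((e.X : ℝ), (f.Y : ℝ))) := by
  have hne := ne_cases hef
  have e1 := e.hu
  have e2 := e.huv
  have e3 := e.hv
  obtain ⟨e4, e5, e6⟩ := e.base
  have f1 := f.hu
  have f2 := f.huv
  have f3 := f.hv
  obtain ⟨f4, f5, f6⟩ := f.base
  have t1 := blk_tri e.hn e.u f.u
  have t2 := blk_tri e.hn e.u f.v
  have t3 := blk_tri e.hn e.v f.u
  have t4 := blk_tri e.hn e.v f.v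
  obtain ⟨o1, o2, o3, o4, o5, o6, o7, o8, o9, o10, o11, o12, o13, o14⟩ := e.one
  obtain ⟨q1, q2, q3, q4, q5, q6, q7, q8, q9, q10, q11, q12, q13, q14⟩ := f.one
  rcases he with h | h | h | h | h | h
  · rcases hf with h' | h' | h' | h' | h' | h'
    · obtain ⟨i1, i2, i3, i4⟩ := box_inter (sseg_sub_r (by omega) (by omega) h) (sseg_sub_r (by omega) (by omega) h')
      simp only [a, b, X, X1, X2, lam, rho, W, Z, mu, Y, nu, M, y1, xv] at i1 i2 i3 i4
      have hu : e.u = f.u := by omega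
      have ha : f.a = e.a := by simp only [a, xv, hu]
      rw [ha] at h'
      have hX : e.X ≠ f.X := by simp only [X, hu]; omega
      refine Or.inl ⟨e.u, Or.inl rfl, Or.inl hu, fan_fan (by omega) (by omega) ?_ h h'⟩
      intro hc
      have := mul_right_cancel₀ (show y1 n ≠ 0 by omega) hc
      omega
    · exfalso
      obtain ⟨i1, i2, i3, i4⟩ := sseg_sub_r (by omega) (by omega) h
      have := mem_sseg_top (by omega) h (le_antisymm i4 h'.2.1)
      have h2 := h'.1
      rw [this] at h2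
      simp only at h2
      have h3 : e.X = f.X := by exact_mod_cast h2
      simp only [X] at h3
      omega
    · obtain ⟨i1, i2, i3, i4⟩ := box_inter (sseg_sub_r (by omega) (by omega) h) (vseg_sub h')
      simp only [a, b, X, X1, X2, lam, rho, W, Z, mu, Y, nu, M, y1, xv] at i1 i2 i3 i4
      exfalso; omega
    · obtain ⟨i1, i2, i3, i4⟩ := box_inter (sseg_sub_r (by omega) (by omega) h) (hseg_sub h')
      simp only [a, b, X, X1, X2, lam, rho, W, Z, mu, Y, nu, M, y1, xv] at i1 i2 i3 i4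
      exfalso; omega
    · obtain ⟨i1, i2, i3, i4⟩ := box_inter (sseg_sub_r (by omega) (by omega) h) (hseg_sub h')
      simp only [a, b, X, X1, X2, lam, rho, W, Z, mu, Y, nu, M, y1, xv] at i1 i2 i3 i4
      exfalso; omega
    · obtain ⟨i1, i2, i3, i4⟩ := box_inter (sseg_sub_r (by omega) (by omega) h) (sseg_sub_l (by omega) (by omega) h')
      simp only [a, b, X, X1, X2, lam, rho, W, Z, mu, Y, nu, M, y1, xv] at i1 i2 i3 i4
      have hu : e.u = f.v := by omega
      have hb' := sseg_sub_l (by omega) (by omega) h'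
      have hb := sseg_sub_r (by omega) (by omega) h
      have ha : f.b = e.a := by simp only [a, b, xv, hu]
      rw [ha] at hb'
      have hh : p = ((e.a : ℝ), (0 : ℝ)) := mem_sseg_bot (by omega) h (le_antisymm hb'.2.1 hb.1)
      exact Or.inl ⟨e.u, Or.inl rfl, Or.inr hu, hh⟩
  · rcases hf with h' | h' | h' | h' | h' | h'
    · exfalso
      obtain ⟨i1, i2, i3, i4⟩ := sseg_sub_r (by omega) (by omega) h'
      have := mem_sseg_top (by omega) h' (le_antisymm i4 h.2.1)
      have h2 := h.1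
      rw [this] at h2
      simp only at h2
      have h3 : f.X = e.X := by exact_mod_cast h2
      simp only [X] at h3
      omega
    · obtain ⟨i1, i2, i3, i4⟩ := box_inter (vseg_sub h) (vseg_sub h')
      simp only [a, b, X, X1, X2, lam, rho, W, Z, mu, Y, nu, M, y1, xv] at i1 i2 i3 i4
      exfalso; omega
    · obtain ⟨i1, i2, i3, i4⟩ := box_inter (vseg_sub h) (vseg_sub h')
      simp only [a, b, X, X1, X2, lam, rho, W, Z, mu, Y, nu, M, y1, xv] at i1 i2 i3 i4
      exfalso; omega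
    · obtain ⟨i1, i2, i3, i4⟩ := box_inter (vseg_sub h) (hseg_sub h')
      simp only [a, b, X, X1, X2, lam, rho, W, Z, mu, Y, nu, M, y1, xv] at i1 i2 i3 i4
      exact Or.inr (Or.inr ⟨by omega, by omega, by omega, Prod.ext h.1 h'.1⟩)
    · obtain ⟨i1, i2, i3, i4⟩ := box_inter (vseg_sub h) (hseg_sub h')
      simp only [a, b, X, X1, X2, lam, rho, W, Z, mu, Y, nu, M, y1, xv] at i1 i2 i3 i4
      exact Or.inr (Or.inr ⟨by omega, by omega, by omega, Prod.ext h.1 h'.1⟩)
    · obtain ⟨i1, i2, i3, i4⟩ := box_inter (vseg_sub h) (sseg_sub_l (by omega) (by omega) h')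
      simp only [a, b, X, X1, X2, lam, rho, W, Z, mu, Y, nu, M, y1, xv] at i1 i2 i3 i4
      exfalso; omega
  · rcases hf with h' | h' | h' | h' | h' | h'
    · obtain ⟨i1, i2, i3, i4⟩ := box_inter (vseg_sub h) (sseg_sub_r (by omega) (by omega) h')
      simp only [a, b, X, X1, X2, lam, rho, W, Z, mu, Y, nu, M, y1, xv] at i1 i2 i3 i4
      exfalso; omega
    · obtain ⟨i1, i2, i3, i4⟩ := box_inter (vseg_sub h) (vseg_sub h')
      simp only [a, b, X, X1, X2, lam, rho, W, Z, mu, Y, nu, M, y1, xv] at i1 i2 i3 i4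
      exfalso; omega
    · obtain ⟨i1, i2, i3, i4⟩ := box_inter (vseg_sub h) (vseg_sub h')
      simp only [a, b, X, X1, X2, lam, rho, W, Z, mu, Y, nu, M, y1, xv] at i1 i2 i3 i4
      exfalso; omega
    · obtain ⟨i1, i2, i3, i4⟩ := box_inter (vseg_sub h) (hseg_sub h')
      simp only [a, b, X, X1, X2, lam, rho, W, Z, mu, Y, nu, M, y1, xv] at i1 i2 i3 i4
      exact Or.inr (Or.inr ⟨by omega, by omega, by omega, Prod.ext h.1 h'.1⟩)
    · obtain ⟨i1, i2, i3, i4⟩ := box_inter (vseg_sub h) (hseg_sub h')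
      simp only [a, b, X, X1, X2, lam, rho, W, Z, mu, Y, nu, M, y1, xv] at i1 i2 i3 i4
      exact Or.inr (Or.inr ⟨by omega, by omega, by omega, Prod.ext h.1 h'.1⟩)
    · obtain ⟨i1, i2, i3, i4⟩ := box_inter (vseg_sub h) (sseg_sub_l (by omega) (by omega) h')
      simp only [a, b, X, X1, X2, lam, rho, W, Z, mu, Y, nu, M, y1, xv] at i1 i2 i3 i4
      exfalso; omega
  · rcases hf with h' | h' | h' | h' | h' | h'
    · obtain ⟨i1, i2, i3, i4⟩ := box_inter (hseg_sub h) (sseg_sub_r (by omega) (by omega) h')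
      simp only [a, b, X, X1, X2, lam, rho, W, Z, mu, Y, nu, M, y1, xv] at i1 i2 i3 i4
      exfalso; omega
    · obtain ⟨i1, i2, i3, i4⟩ := box_inter (hseg_sub h) (vseg_sub h')
      simp only [a, b, X, X1, X2, lam, rho, W, Z, mu, Y, nu, M, y1, xv] at i1 i2 i3 i4
      exact Or.inr (Or.inl ⟨by omega, by omega, by omega, Prod.ext h'.1 h.1⟩)
    · obtain ⟨i1, i2, i3, i4⟩ := box_inter (hseg_sub h) (vseg_sub h')
      simp only [a, b, X, X1, X2, lam, rho, W, Z, mu, Y, nu, M, y1, xv] at i1 i2 i3 i4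
      exact Or.inr (Or.inl ⟨by omega, by omega, by omega, Prod.ext h'.1 h.1⟩)
    · obtain ⟨i1, i2, i3, i4⟩ := box_inter (hseg_sub h) (hseg_sub h')
      simp only [a, b, X, X1, X2, lam, rho, W, Z, mu, Y, nu, M, y1, xv] at i1 i2 i3 i4
      exfalso; omega
    · obtain ⟨i1, i2, i3, i4⟩ := box_inter (hseg_sub h) (hseg_sub h')
      simp only [a, b, X, X1, X2, lam, rho, W, Z, mu, Y, nu, M, y1, xv] at i1 i2 i3 i4
      exfalso; omega
    · obtain ⟨i1, i2, i3, i4⟩ := box_inter (hseg_sub h) (sseg_sub_l (by omega) (by omega) h')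
      simp only [a, b, X, X1, X2, lam, rho, W, Z, mu, Y, nu, M, y1, xv] at i1 i2 i3 i4
      exfalso; omega
  · rcases hf with h' | h' | h' | h' | h' | h'
    · obtain ⟨i1, i2, i3, i4⟩ := box_inter (hseg_sub h) (sseg_sub_r (by omega) (by omega) h')
      simp only [a, b, X, X1, X2, lam, rho, W, Z, mu, Y, nu, M, y1, xv] at i1 i2 i3 i4
      exfalso; omega
    · obtain ⟨i1, i2, i3, i4⟩ := box_inter (hseg_sub h) (vseg_sub h')
      simp only [a, b, X, X1, X2, lam, rho, W, Z, mu, Y, nu, M, y1, xv] at i1 i2 i3 i4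
      exact Or.inr (Or.inl ⟨by omega, by omega, by omega, Prod.ext h'.1 h.1⟩)
    · obtain ⟨i1, i2, i3, i4⟩ := box_inter (hseg_sub h) (vseg_sub h')
      simp only [a, b, X, X1, X2, lam, rho, W, Z, mu, Y, nu, M, y1, xv] at i1 i2 i3 i4
      exact Or.inr (Or.inl ⟨by omega, by omega, by omega, Prod.ext h'.1 h.1⟩)
    · obtain ⟨i1, i2, i3, i4⟩ := box_inter (hseg_sub h) (hseg_sub h')
      simp only [a, b, X, X1, X2, lam, rho, W, Z, mu, Y, nu, M, y1, xv] at i1 i2 i3 i4
      exfalso; omega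
    · obtain ⟨i1, i2, i3, i4⟩ := box_inter (hseg_sub h) (hseg_sub h')
      simp only [a, b, X, X1, X2, lam, rho, W, Z, mu, Y, nu, M, y1, xv] at i1 i2 i3 i4
      exfalso; omega
    · obtain ⟨i1, i2, i3, i4⟩ := box_inter (hseg_sub h) (sseg_sub_l (by omega) (by omega) h')
      simp only [a, b, X, X1, X2, lam, rho, W, Z, mu, Y, nu, M, y1, xv] at i1 i2 i3 i4
      exfalso; omega
  · rcases hf with h' | h' | h' | h' | h' | h'
    · obtain ⟨i1, i2, i3, i4⟩ := box_inter (sseg_sub_l (by omega) (by omega) h) (sseg_sub_r (by omega) (by omega) h')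
      simp only [a, b, X, X1, X2, lam, rho, W, Z, mu, Y, nu, M, y1, xv] at i1 i2 i3 i4
      have hu : f.u = e.v := by omega
      have hb' := sseg_sub_r (by omega) (by omega) h'
      have hb := sseg_sub_l (by omega) (by omega) h
      have ha : f.a = e.b := by simp only [a, b, xv, hu]
      rw [ha] at hb'
      have hh : p = ((e.b : ℝ), (0 : ℝ)) := mem_sseg_bot (by omega) h (le_antisymm hb.2.1 hb'.1)
      exact Or.inl ⟨e.v, Or.inr rfl, Or.inl hu.symm, hh⟩
    · obtain ⟨i1, i2, i3, i4⟩ := box_inter (sseg_sub_l (by omega) (by omega) h) (vseg_sub h')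
      simp only [a, b, X, X1, X2, lam, rho, W, Z, mu, Y, nu, M, y1, xv] at i1 i2 i3 i4
      exfalso; omega
    · obtain ⟨i1, i2, i3, i4⟩ := box_inter (sseg_sub_l (by omega) (by omega) h) (vseg_sub h')
      simp only [a, b, X, X1, X2, lam, rho, W, Z, mu, Y, nu, M, y1, xv] at i1 i2 i3 i4
      exfalso; omega
    · obtain ⟨i1, i2, i3, i4⟩ := box_inter (sseg_sub_l (by omega) (by omega) h) (hseg_sub h')
      simp only [a, b, X, X1, X2, lam, rho, W, Z, mu, Y, nu, M, y1, xv] at i1 i2 i3 i4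
      exfalso; omega
    · obtain ⟨i1, i2, i3, i4⟩ := box_inter (sseg_sub_l (by omega) (by omega) h) (hseg_sub h')
      simp only [a, b, X, X1, X2, lam, rho, W, Z, mu, Y, nu, M, y1, xv] at i1 i2 i3 i4
      exfalso; omega
    · obtain ⟨i1, i2, i3, i4⟩ := box_inter (sseg_sub_l (by omega) (by omega) h) (sseg_sub_l (by omega) (by omega) h')
      simp only [a, b, X, X1, X2, lam, rho, W, Z, mu, Y, nu, M, y1, xv] at i1 i2 i3 i4
      have hv : e.v = f.v := by omega
      have hb : f.b = e.b := by simp only [b, xv, hv]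
      rw [hb] at h'
      refine Or.inl ⟨e.v, Or.inr rfl, Or.inr hv, fan_fan o8 q8 ?_ h h'⟩
      simp only [X2, b, Z, xv, hv]
      intro hc
      have h1 : (-1 - e.u) * (blk n n - blk n f.v - f.u) =
          (-1 - f.u) * (blk n n - blk n f.v - e.u) := by linear_combination hc
      have h2 : (blk n n - blk n f.v + 1) * (f.u - e.u) = 0 := by linear_combination h1
      rcases mul_eq_zero.1 h2 with h3 | h3
      · omega
      · omega

end Edg

end Pool.Agent.H29.Thr
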