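import Pool.Agent.H29.Thr.Local

open Set Topology

namespace Pool.Agent.H29.Thr

theorem IsArc.subtype {P : Type*} [TopologicalSpace P] {S A : Set P} {a b : P}
    (h : IsArc A a b) (hA : A ⊆ S) (ha : a ∈ S) (hb : b ∈ S) :
    IsArc ((Subtype.val : S → P) ⁻¹' A) ⟨a, ha⟩ ⟨b, hb⟩ := by
  obtain ⟨γ, h1, h2, h3, h4, h5⟩ := h
  have hm : ∀ t, γ t ∈ S := fun t => hA (h5 ▸ ⟨t, rfl⟩)
  refine ⟨fun t => ⟨γ t, hm t⟩, h1.subtype_mk hm, ?_, Subtype.ext h3, Subtype.ext h4, ?_⟩
  · intro s t hst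
    exact h2 (congrArg Subtype.val hst)
  · ext q
    constructor
    · rintro ⟨t, rfl⟩
      show γ t ∈ A
      rw [← h5]
      exact ⟨t, rfl⟩
    · intro hq
      have hq' : (q : P) ∈ A := hq
      rw [← h5] at hq'
      obtain ⟨t, ht⟩ := hq'
      exact ⟨t, Subtype.ext ht⟩

theorem CrossAt.symm {S : Type*} [TopologicalSpace S] {A B : Set S} {p : S}
    (h : CrossAt A B p) : CrossAt B A p := by
  obtain ⟨O, hO, hp, h, hh⟩ := h
  have key : ∀ w : ℝ × ℝ, w ∈ Metric.ball (0 : ℝ × ℝ) 1 → w.swap ∈ Metric.ball (0 : ℝ × ℝ) 1 := by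
    intro w hw
    rw [mem_ball_zero_iff, Prod.norm_def, max_lt_iff] at hw ⊢
    exact ⟨hw.2, hw.1⟩
  let sw : Metric.ball (0 : ℝ × ℝ) 1 ≃ₜ Metric.ball (0 : ℝ × ℝ) 1 :=
    { toFun := fun w => ⟨w.1.swap, key _ w.2⟩
      invFun := fun w => ⟨w.1.swap, key _ w.2⟩
      left_inv := fun w => Subtype.ext (Prod.swap_swap _)
      right_inv := fun w => Subtype.ext (Prod.swap_swap _)
      continuous_toFun := (continuous_swap.comp continuous_subtype_val).subtype_mk _
      continuous_invFun := (continuous_swap.comp continuous_subtype_val).subtype_mk _ }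
  refine ⟨O, hO, hp, h.trans sw, fun q => ⟨(hh q).2, (hh q).1⟩⟩

variable {n : ℤ}

theorem blk_nonneg (hn : 0 ≤ n) : 0 ≤ blk n n := by
  unfold blk; nlinarith

variable {ι : Type*} {g : ℕ}

/-- the square with eight holes for each edge -/
noncomputable def mkD (hn : 0 ≤ n) (E : ι → Edg n) (hE : Function.Injective E)
    (ε : Fin g ≃ ι × HK) : HoledSquare g where
  side := side n
  centre k := (E (ε k).1).cen (ε k).2
  radius _ := 1 / 8
  side_pos := by
    have := blk_nonneg hn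
    have h : 0 < side n := by unfold side; omega
    exact_mod_cast h
  radius_pos _ := by norm_num
  inside k := (E (ε k).1).cen_bound _
  disjoint k l hkl := by
    apply Edg.cen_far
    by_contra hc
    push Not at hc
    exact hkl (ε.injective (Prod.ext (hE hc.1) hc.2))

variable (hn : 0 ≤ n) (E : ι → Edg n) (hE : Function.Injective E) (ε : Fin g ≃ ι × HK)

theorem mem_region {p : ℝ × ℝ} : p ∈ (mkD hn E hE ε).region ↔
    ‖p‖ ≤ side n ∧ ∀ i k, 1 / 8 ≤ ‖p - (E i).cen k‖ := by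
  constructor
  · rintro ⟨h1, h2⟩
    refine ⟨h1, fun i k => ?_⟩
    have := h2 (ε.symm (i, k))
    simpa [mkD] using this
  · rintro ⟨h1, h2⟩
    exact ⟨h1, fun k => h2 _ _⟩

theorem path_region (i : ι) {p : ℝ × ℝ} (hp : p ∈ (E i).path) :
    p ∈ (mkD hn E hE ε).region := by
  rw [mem_region]
  refine ⟨((E i).path_bound hp).le, fun j k => ?_⟩
  by_cases hij : E j = E i
  · rw [hij]
    exact (E i).hole_own hp k
  · exact (Edg.hole_miss hij hp k).le

/-- distance to the complement of the region -/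
noncomputable def dd (p : ℝ × ℝ) : ℝ := Metric.infDist p (mkD hn E hE ε).regionᶜ

theorem dd_nonneg (p : ℝ × ℝ) : 0 ≤ dd hn E hE ε p := Metric.infDist_nonneg

theorem continuous_dd : Continuous (dd hn E hE ε) := Metric.continuous_infDist_pt _

theorem compl_nonempty : ((mkD hn E hE ε).regionᶜ).Nonempty := by
  refine ⟨((side n : ℝ) + 1, 0), ?_⟩
  rw [mem_compl_iff, mem_region]
  rintro ⟨h1, h2⟩
  rw [norm_prod_le_iff] at h1
  have := (abs_le.1 h1.1).2
  simp only at this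
  linarith

theorem dd_switch (i : ι) (k : HK) :
    dd hn E hE ε (((E i).hx k : ℝ), ((E i).hy k : ℝ)) = 0 := by
  apply Metric.infDist_zero_of_mem_closure
  set h : ℝ × ℝ := (((E i).hx k : ℝ), ((E i).hy k : ℝ)) with hh
  have hc : Continuous fun t : ℝ => h + t • ((E i).cen k - h) := by fun_prop
  have h0 : (0 : ℝ) ∈ closure (Set.Ioc (0 : ℝ) 1) := by
    rw [closure_Ioc (by norm_num)]
    exact ⟨le_rfl, zero_le_one⟩
  have h1 := map_mem_closure hc h0 (t := (mkD hn E hE ε).regionᶜ) (by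
    intro t ht
    rw [mem_compl_iff, mem_region]
    rintro ⟨_, h2⟩
    exact absurd (h2 i k) (not_le.2 ((E i).seg_hole k t ht.1 ht.2)))
  simpa using h1

theorem dd_pos [Finite ι] {p : ℝ × ℝ} (h1 : ‖p‖ < side n) (h2 : ∀ i k, 1 / 8 < ‖p - (E i).cen k‖) :
    0 < dd hn E hE ε p := by
  have hU : IsOpen {q : ℝ × ℝ | ‖q‖ < side n ∧ ∀ i k, 1 / 8 < ‖q - (E i).cen k‖} := by
    apply IsOpen.inter
    · exact isOpen_lt continuous_norm continuous_const
    · have : {q : ℝ × ℝ | ∀ i k, 1 / 8 < ‖q - (E i).cen k‖} =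
          ⋂ i, ⋂ k, {q : ℝ × ℝ | 1 / 8 < ‖q - (E i).cen k‖} := by
        ext q; simp
      show IsOpen {q : ℝ × ℝ | ∀ i k, 1 / 8 < ‖q - (E i).cen k‖}
      rw [this]
      exact isOpen_iInter_of_finite fun i => isOpen_iInter_of_finite fun k =>
        isOpen_lt continuous_const (by fun_prop)
  have hsub : {q : ℝ × ℝ | ‖q‖ < side n ∧ ∀ i k, 1 / 8 < ‖q - (E i).cen k‖} ⊆
      (mkD hn E hE ε).region := by
    intro q hq
    rw [mem_region]
    exact ⟨hq.1.le, fun i k => (hq.2 i k).le⟩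
  have hint : p ∈ interior (mkD hn E hE ε).region :=
    mem_interior.2 ⟨_, hsub, hU, ⟨h1, h2⟩⟩
  have hncl : p ∉ closure (mkD hn E hE ε).regionᶜ := by
    rw [closure_compl]
    exact fun h => h hint
  exact (Metric.infDist_pos_iff_notMem_closure (compl_nonempty hn E hE ε)).1 hncl

open Classical in
/-- height of the curve -/
noncomputable def hgt (i : ι) (p : ℝ × ℝ) : ℝ :=
  if p ∈ (E i).T then dd hn E hE ε p else - dd hn E hE ε p

theorem hgt_T {i : ι} {p : ℝ × ℝ} (h : p ∈ (E i).T) :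
    hgt hn E hE ε i p = dd hn E hE ε p := if_pos h

theorem hgt_not_T {i : ι} {p : ℝ × ℝ} (h : p ∉ (E i).T) :
    hgt hn E hE ε i p = - dd hn E hE ε p := if_neg h

theorem hgt_B {i : ι} {p : ℝ × ℝ} (h : p ∈ (E i).B) :
    hgt hn E hE ε i p = - dd hn E hE ε p := by
  by_cases hT : p ∈ (E i).T
  · obtain ⟨k, hk⟩ := (E i).T_inter_B hT h
    rw [hgt_T hn E hE ε hT, hk, dd_switch]
    simp
  · exact hgt_not_T hn E hE ε hT

theorem abs_hgt (i : ι) (p : ℝ × ℝ) : |hgt hn E hE ε i p| = dd hn E hE ε p := by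
  by_cases hT : p ∈ (E i).T
  · rw [hgt_T hn E hE ε hT, abs_of_nonneg (dd_nonneg hn E hE ε p)]
  · rw [hgt_not_T hn E hE ε hT, abs_neg, abs_of_nonneg (dd_nonneg hn E hE ε p)]

theorem continuousOn_hgt (i : ι) : ContinuousOn (hgt hn E hE ε i) (E i).path := by
  rw [(E i).path_eq]
  apply ContinuousOn.union_of_isClosed
  · exact (continuous_dd hn E hE ε).continuousOn.congr fun p hp => hgt_T hn E hE ε hp
  · exact (continuous_dd hn E hE ε).neg.continuousOn.congr fun p hp => hgt_B hn E hE ε hp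
  · exact (E i).isClosed_T
  · exact (E i).isClosed_B

/-- the curve drawn on the surface -/
def arc (i : ι) : Set ((ℝ × ℝ) × ℝ) := (fun p => (p, hgt hn E hE ε i p)) '' (E i).path

/-- the point of the top sheet above `p` -/
noncomputable def top (p : ℝ × ℝ) : (ℝ × ℝ) × ℝ := (p, dd hn E hE ε p)

/-- the position of the vertex `w` in the plane -/
def pv (n w : ℤ) : ℝ × ℝ := ((xv n w : ℝ), (0 : ℝ))

theorem arc_sub (i : ι) : arc hn E hE ε i ⊆ (mkD hn E hE ε).surface := by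
  rintro _ ⟨p, hp, rfl⟩
  exact ⟨path_region hn E hE ε i hp, abs_hgt hn E hE ε i p⟩

theorem top_mem {p : ℝ × ℝ} (hp : p ∈ (mkD hn E hE ε).region) :
    top hn E hE ε p ∈ (mkD hn E hE ε).surface :=
  ⟨hp, abs_of_nonneg (dd_nonneg hn E hE ε p)⟩

theorem isArc_arc (i : ι) : IsArc (arc hn E hE ε i) (top hn E hE ε (pv n (E i).u))
    (top hn E hE ε (pv n (E i).v)) := by
  have h := (E i).isArc_path.image (fun p => (p, hgt hn E hE ε i p))
    (continuousOn_id.prodMk (continuousOn_hgt hn E hE ε i)) (fun p _ q _ hpq =>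
      congrArg Prod.fst hpq)
  have h1 : (((xv n (E i).u : ℝ), (0 : ℝ)), hgt hn E hE ε i ((xv n (E i).u : ℝ), (0 : ℝ))) =
      top hn E hE ε (pv n (E i).u) := by
    rw [hgt_T hn E hE ε (E i).u_mem]; rfl
  have h2 : (((xv n (E i).v : ℝ), (0 : ℝ)), hgt hn E hE ε i ((xv n (E i).v : ℝ), (0 : ℝ))) =
      top hn E hE ε (pv n (E i).v) := by
    rw [hgt_T hn E hE ε (E i).v_mem]; rfl
  rw [← h1, ← h2]
  exact h

theorem arc_inter [Finite ι] {i j : ι} (hij : i ≠ j) {q : (ℝ × ℝ) × ℝ}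
    (hi : q ∈ arc hn E hE ε i) (hj : q ∈ arc hn E hE ε j) :
    q.1 ∈ (E i).T ∧ q.1 ∈ (E j).T ∧ q = top hn E hE ε q.1 := by
  obtain ⟨p, hp, rfl⟩ := hi
  obtain ⟨p', hp', h⟩ := hj
  have h1 : p' = p := congrArg Prod.fst h
  subst h1
  have h2 : hgt hn E hE ε j p' = hgt hn E hE ε i p' := congrArg Prod.snd h
  have hEij : E i ≠ E j := fun h => hij (hE h)
  have hpos : 0 < dd hn E hE ε p' := by
    apply dd_pos hn E hE ε ((E i).path_bound hp)
    intro k l
    by_cases hk : E k = E i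
    · rw [hk]
      exact Edg.hole_miss hEij hp' l
    · exact Edg.hole_miss hk hp l
  by_cases hTi : p' ∈ (E i).T
  · by_cases hTj : p' ∈ (E j).T
    · refine ⟨hTi, hTj, ?_⟩
      simp only [top]
      rw [hgt_T hn E hE ε hTi]
    · exfalso
      rw [hgt_T hn E hE ε hTi, hgt_not_T hn E hE ε hTj] at h2
      linarith
  · have hBi : p' ∈ (E i).B := by
      rw [(E i).path_eq] at hp
      exact hp.resolve_left hTi
    by_cases hTj : p' ∈ (E j).T
    · exfalso
      rw [hgt_not_T hn E hE ε hTi, hgt_T hn E hE ε hTj] at h2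
      linarith
    · have hBj : p' ∈ (E j).B := by
        rw [(E j).path_eq] at hp'
        exact hp'.resolve_left hTj
      exact (Edg.B_inter_B hEij hBi hBj).elim

theorem top_mem_arc {i : ι} {p : ℝ × ℝ} (hp : p ∈ (E i).T) :
    top hn E hE ε p ∈ arc hn E hE ε i := by
  refine ⟨p, ?_, ?_⟩
  · rw [(E i).path_eq]
    exact Or.inl hp
  · simp only [top]
    rw [hgt_T hn E hE ε hp]

end Pool.Agent.H29.Thr
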